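import Mathlib

namespace Pool.Agent.H9.Isotriv

open Polynomial

/-- `ℂ(z)` -/
abbrev K : Type := FractionRing ℂ[X]

/-- the inclusion `ℂ[z] → ℂ(z)` -/
noncomputable def kap : ℂ[X] →+* K := algebraMap ℂ[X] K

lemma kap_inj : Function.Injective kap := IsFractionRing.injective _ _

noncomputable def Z : K := kap X

lemma Z_ne : Z ≠ 0 := by
  intro h
  have : (X : ℂ[X]) = 0 := kap_inj (by rw [map_zero]; exact h)
  exact X_ne_zero this

lemma Z1_ne : 1 - Z ≠ 0 := by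
  intro h
  have h1 : kap (1 - X) = 0 := by rw [map_sub, map_one]; exact h
  have : (1 - X : ℂ[X]) = 0 := kap_inj (by rw [map_zero]; exact h1)
  have h2 := congrArg (eval 0) this
  simp at h2

noncomputable def cc (c : ℂ) : K[X] := C (kap (C c))

noncomputable def uu (c : ℂ) : K[X] := C Z⁻¹ * (X ^ 2 + cc c)

noncomputable def vv (c : ℂ) : K[X] := C (1 - Z)⁻¹ * (X ^ 4 + cc c)

noncomputable def ww (c : ℂ) : K[X] := C (1 + Z) * uu c ^ 2 + vv c

lemma rel_u (c : ℂ) : C Z * uu c = X ^ 2 + cc c := by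
  unfold uu
  rw [← mul_assoc, ← C_mul, mul_inv_cancel₀ Z_ne, C_1, one_mul]

lemma rel_v (c : ℂ) : C (1 - Z) * vv c = X ^ 4 + cc c := by
  unfold vv
  rw [← mul_assoc, ← C_mul, mul_inv_cancel₀ Z1_ne, C_1, one_mul]

lemma rel_w (c : ℂ) : uu c ^ 2 = C (1 - Z) * ww c + 2 * cc c * (C Z * uu c) - cc c ^ 2 - cc c := by
  have h1 := rel_u c
  have h2 := rel_v c
  have h3 : (X : K[X]) ^ 2 = C Z * uu c - cc c := by rw [h1]; ring
  have h4 : C (1 - Z) * vv c = (C Z * uu c - cc c) ^ 2 + cc c := by rw [h2, ← h3]; ring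
  have h5 : C (1 - Z) * ww c = C (1 - Z) * (C (1 + Z) * uu c ^ 2) + C (1 - Z) * vv c := by
    unfold ww; ring
  rw [h5, h4]
  simp only [C_sub, C_add, C_1]
  ring

/-- the basis of `R_c` over `ℂ[z]` -/
noncomputable def ee (c : ℂ) (J : ℕ) : K[X] := X ^ (J % 2) * uu c ^ (J / 2 % 2) * ww c ^ (J / 4)

lemma ee0 (c : ℂ) (k : ℕ) : ee c (4 * k) = ww c ^ k := by
  unfold ee
  rw [(by omega : 4 * k % 2 = 0), (by omega : 4 * k / 2 % 2 = 0), (by omega : 4 * k / 4 = k)]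
  ring

lemma ee1 (c : ℂ) (k : ℕ) : ee c (4 * k + 1) = X * ww c ^ k := by
  unfold ee
  rw [(by omega : (4 * k + 1) % 2 = 1), (by omega : (4 * k + 1) / 2 % 2 = 0),
    (by omega : (4 * k + 1) / 4 = k)]
  ring

lemma ee2 (c : ℂ) (k : ℕ) : ee c (4 * k + 2) = uu c * ww c ^ k := by
  unfold ee
  rw [(by omega : (4 * k + 2) % 2 = 0), (by omega : (4 * k + 2) / 2 % 2 = 1),
    (by omega : (4 * k + 2) / 4 = k)]
  ring

lemma ee3 (c : ℂ) (k : ℕ) : ee c (4 * k + 3) = X * uu c * ww c ^ k := by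
  unfold ee
  rw [(by omega : (4 * k + 3) % 2 = 1), (by omega : (4 * k + 3) / 2 % 2 = 1),
    (by omega : (4 * k + 3) / 4 = k)]
  ring

lemma smul_eq (p : ℂ[X]) (f : K[X]) : p • f = C (kap p) * f := by
  rw [Algebra.smul_def]
  rfl

noncomputable def TT (c : ℂ) : Submodule ℂ[X] K[X] := Submodule.span ℂ[X] (Set.range (ee c))

lemma ee_mem (c : ℂ) (J : ℕ) : ee c J ∈ TT c := Submodule.subset_span ⟨J, rfl⟩

lemma kap_mul_mem {c : ℂ} {f : K[X]} (p : ℂ[X]) (hf : f ∈ TT c) : C (kap p) * f ∈ TT c := by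
  rw [← smul_eq]
  exact Submodule.smul_mem _ _ hf

lemma Z_mul_mem {c : ℂ} {f : K[X]} (hf : f ∈ TT c) : C Z * f ∈ TT c := kap_mul_mem X hf

lemma cc_mul_mem {c : ℂ} {f : K[X]} (hf : f ∈ TT c) (d : ℂ) : cc d * f ∈ TT c :=
  kap_mul_mem (C d) hf

lemma Z1_mul_mem {c : ℂ} {f : K[X]} (hf : f ∈ TT c) : C (1 - Z) * f ∈ TT c := by
  have : C (1 - Z) * f = f - C Z * f := by rw [C_sub, C_1]; ring
  rw [this]
  exact Submodule.sub_mem _ hf (Z_mul_mem hf)

/-- an induction principle on the four types of basis elements -/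
lemma mul_mem_of {c : ℂ} (t : K[X])
    (h : ∀ k : ℕ, t * ww c ^ k ∈ TT c ∧ t * (X * ww c ^ k) ∈ TT c ∧ t * (uu c * ww c ^ k) ∈ TT c ∧
      t * (X * uu c * ww c ^ k) ∈ TT c) {f : K[X]} (hf : f ∈ TT c) : t * f ∈ TT c := by
  induction hf using Submodule.span_induction with
  | mem x hx =>
    obtain ⟨J, rfl⟩ := hx
    obtain ⟨k, hk⟩ : ∃ k, J = 4 * k ∨ J = 4 * k + 1 ∨ J = 4 * k + 2 ∨ J = 4 * k + 3 :=
      ⟨J / 4, by omega⟩
    rcases hk with rfl | rfl | rfl | rfl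
    · rw [ee0]; exact (h k).1
    · rw [ee1]; exact (h k).2.1
    · rw [ee2]; exact (h k).2.2.1
    · rw [ee3]; exact (h k).2.2.2
  | zero => rw [mul_zero]; exact Submodule.zero_mem _
  | add x y _ _ hx hy => rw [mul_add]; exact Submodule.add_mem _ hx hy
  | smul a x _ hx => rw [mul_smul_comm]; exact Submodule.smul_mem _ _ hx

lemma u_mul_mem {c : ℂ} {f : K[X]} (hf : f ∈ TT c) : uu c * f ∈ TT c := by
  refine mul_mem_of (uu c) (fun k => ?_) hf
  have m0 : ww c ^ k ∈ TT c := by rw [← ee0]; exact ee_mem _ _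
  have m1 : X * ww c ^ k ∈ TT c := by rw [← ee1]; exact ee_mem _ _
  have m2 : uu c * ww c ^ k ∈ TT c := by rw [← ee2]; exact ee_mem _ _
  have m3 : X * uu c * ww c ^ k ∈ TT c := by rw [← ee3]; exact ee_mem _ _
  have m0' : ww c ^ (k + 1) ∈ TT c := by rw [← ee0]; exact ee_mem _ _
  have m1' : X * ww c ^ (k + 1) ∈ TT c := by rw [← ee1]; exact ee_mem _ _
  refine ⟨m2, ?_, ?_, ?_⟩
  · have : uu c * (X * ww c ^ k) = X * uu c * ww c ^ k := by ring
    rw [this]; exact m3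
  · have : uu c * (uu c * ww c ^ k) = C (1 - Z) * ww c ^ (k + 1)
        + (cc c * (C Z * (uu c * ww c ^ k)) + cc c * (C Z * (uu c * ww c ^ k)))
        - cc c * (cc c * ww c ^ k) - cc c * ww c ^ k := by
      rw [← mul_assoc, ← sq, rel_w]; ring
    rw [this]
    exact Submodule.sub_mem _ (Submodule.sub_mem _ (Submodule.add_mem _ (Z1_mul_mem m0')
      (Submodule.add_mem _ (cc_mul_mem (Z_mul_mem m2) _) (cc_mul_mem (Z_mul_mem m2) _)))
      (cc_mul_mem (cc_mul_mem m0 _) _)) (cc_mul_mem m0 _)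
  · have : uu c * (X * uu c * ww c ^ k) = C (1 - Z) * (X * ww c ^ (k + 1))
        + (cc c * (C Z * (X * uu c * ww c ^ k)) + cc c * (C Z * (X * uu c * ww c ^ k)))
        - cc c * (cc c * (X * ww c ^ k)) - cc c * (X * ww c ^ k) := by
      have e : uu c * (X * uu c * ww c ^ k) = uu c ^ 2 * (X * ww c ^ k) := by ring
      rw [e, rel_w]; ring
    rw [this]
    exact Submodule.sub_mem _ (Submodule.sub_mem _ (Submodule.add_mem _ (Z1_mul_mem m1')
      (Submodule.add_mem _ (cc_mul_mem (Z_mul_mem m3) _) (cc_mul_mem (Z_mul_mem m3) _)))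
      (cc_mul_mem (cc_mul_mem m1 _) _)) (cc_mul_mem m1 _)

lemma X_mul_mem {c : ℂ} {f : K[X]} (hf : f ∈ TT c) : X * f ∈ TT c := by
  refine mul_mem_of X (fun k => ?_) hf
  have m0 : ww c ^ k ∈ TT c := by rw [← ee0]; exact ee_mem _ _
  have m1 : X * ww c ^ k ∈ TT c := by rw [← ee1]; exact ee_mem _ _
  have m2 : uu c * ww c ^ k ∈ TT c := by rw [← ee2]; exact ee_mem _ _
  have m3 : X * uu c * ww c ^ k ∈ TT c := by rw [← ee3]; exact ee_mem _ _
  have h3 : (X : K[X]) ^ 2 = C Z * uu c - cc c := by rw [rel_u]; ring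
  refine ⟨m1, ?_, ?_, ?_⟩
  · have : X * (X * ww c ^ k) = C Z * (uu c * ww c ^ k) - cc c * ww c ^ k := by
      rw [← mul_assoc, ← sq, h3]; ring
    rw [this]
    exact Submodule.sub_mem _ (Z_mul_mem m2) (cc_mul_mem m0 _)
  · have : X * (uu c * ww c ^ k) = X * uu c * ww c ^ k := by ring
    rw [this]; exact m3
  · have : X * (X * uu c * ww c ^ k) = C Z * (uu c * (uu c * ww c ^ k))
        - cc c * (uu c * ww c ^ k) := by
      have e : X * (X * uu c * ww c ^ k) = X ^ 2 * (uu c * ww c ^ k) := by ring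
      rw [e, h3]; ring
    rw [this]
    exact Submodule.sub_mem _ (Z_mul_mem (u_mul_mem m2)) (cc_mul_mem m2 _)

lemma w_mul_mem {c : ℂ} {f : K[X]} (hf : f ∈ TT c) : ww c * f ∈ TT c := by
  refine mul_mem_of (ww c) (fun k => ?_) hf
  have m0' : ww c ^ (k + 1) ∈ TT c := by rw [← ee0]; exact ee_mem _ _
  have m1' : X * ww c ^ (k + 1) ∈ TT c := by rw [← ee1]; exact ee_mem _ _
  have m2' : uu c * ww c ^ (k + 1) ∈ TT c := by rw [← ee2]; exact ee_mem _ _
  have m3' : X * uu c * ww c ^ (k + 1) ∈ TT c := by rw [← ee3]; exact ee_mem _ _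
  refine ⟨?_, ?_, ?_, ?_⟩
  · rw [← pow_succ']; exact m0'
  · have : ww c * (X * ww c ^ k) = X * ww c ^ (k + 1) := by ring
    rw [this]; exact m1'
  · have : ww c * (uu c * ww c ^ k) = uu c * ww c ^ (k + 1) := by ring
    rw [this]; exact m2'
  · have : ww c * (X * uu c * ww c ^ k) = X * uu c * ww c ^ (k + 1) := by ring
    rw [this]; exact m3'

lemma v_mul_mem {c : ℂ} {f : K[X]} (hf : f ∈ TT c) : vv c * f ∈ TT c := by
  have : vv c * f = ww c * f - (uu c * (uu c * f) + C Z * (uu c * (uu c * f))) := by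
    unfold ww; rw [C_add, C_1]; ring
  rw [this]
  exact Submodule.sub_mem _ (w_mul_mem hf) (Submodule.add_mem _ (u_mul_mem (u_mul_mem hf))
    (Z_mul_mem (u_mul_mem (u_mul_mem hf))))

/-- the function `x` -/
noncomputable def xx (c : ℂ) : K[X] := -(uu c + vv c)

lemma x_mul_mem {c : ℂ} {f : K[X]} (hf : f ∈ TT c) : xx c * f ∈ TT c := by
  have : xx c * f = -(uu c * f + vv c * f) := by unfold xx; ring
  rw [this]
  exact Submodule.neg_mem _ (Submodule.add_mem _ (u_mul_mem hf) (v_mul_mem hf))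

lemma rel_x (c : ℂ) : C (Z * (Z - 1)) * xx c = X ^ 2 * C (1 - Z) + X ^ 4 * C Z + cc c := by
  have h1 := rel_u c
  have h2 := rel_v c
  have : C (Z * (Z - 1)) * xx c = C (1 - Z) * (C Z * uu c) + C Z * (C (1 - Z) * vv c) := by
    unfold xx
    simp only [C_mul, C_sub, C_1]
    ring
  rw [this, h1, h2]
  simp only [C_sub, C_1]
  ring

lemma one_mem_T (c : ℂ) : (1 : K[X]) ∈ TT c := by
  have := ee_mem c (4 * 0)
  rw [ee0, pow_zero] at this
  exact this

/-! ### degrees -/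

/-- the leading coefficient of `ee c J` -/
noncomputable def lam (J : ℕ) : K := (Z ^ (J / 2) * (1 - Z) ^ (J / 4))⁻¹

lemma lam_ne (J : ℕ) : lam J ≠ 0 :=
  inv_ne_zero (mul_ne_zero (pow_ne_zero _ Z_ne) (pow_ne_zero _ Z1_ne))

lemma natDegree_sq_add (c : ℂ) (k : ℕ) (hk : 0 < k) : (X ^ k + cc c : K[X]).natDegree = k ∧
    (X ^ k + cc c : K[X]).leadingCoeff = 1 := by
  have h : (X ^ k + cc c : K[X]).Monic := monic_X_pow_add_C _ (by omega)
  exact ⟨natDegree_X_pow_add_C, h⟩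

lemma u_deg (c : ℂ) : (uu c).natDegree = 2 ∧ (uu c).leadingCoeff = Z⁻¹ := by
  obtain ⟨h1, h2⟩ := natDegree_sq_add c 2 (by norm_num)
  unfold uu
  constructor
  · rw [natDegree_C_mul (inv_ne_zero Z_ne), h1]
  · rw [leadingCoeff_mul, h2, leadingCoeff_C, mul_one]

lemma v_deg (c : ℂ) : (vv c).natDegree = 4 ∧ (vv c).leadingCoeff = (1 - Z)⁻¹ := by
  obtain ⟨h1, h2⟩ := natDegree_sq_add c 4 (by norm_num)
  unfold vv
  constructor
  · rw [natDegree_C_mul (inv_ne_zero Z1_ne), h1]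
  · rw [leadingCoeff_mul, h2, leadingCoeff_C, mul_one]

lemma w_deg (c : ℂ) : (ww c).natDegree = 4 ∧ (ww c).leadingCoeff = (Z ^ 2 * (1 - Z))⁻¹ := by
  obtain ⟨hu1, hu2⟩ := u_deg c
  obtain ⟨hv1, hv2⟩ := v_deg c
  have hle : (ww c).natDegree ≤ 4 := by
    unfold ww
    refine (natDegree_add_le _ _).trans (max_le ?_ hv1.le)
    refine (natDegree_C_mul_le _ _).trans ?_
    rw [natDegree_pow, hu1]
  have hco : (ww c).coeff 4 = (Z ^ 2 * (1 - Z))⁻¹ := by
    unfold ww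
    have h1 : (uu c ^ 2).coeff 4 = Z⁻¹ ^ 2 := by
      have : (uu c ^ 2).natDegree = 4 := by rw [natDegree_pow, hu1]
      rw [← this, coeff_natDegree, leadingCoeff_pow, hu2]
    have h2 : (vv c).coeff 4 = (1 - Z)⁻¹ := by
      rw [← hv1, coeff_natDegree, hv2]
    rw [coeff_add, coeff_C_mul, h1, h2]
    have := Z_ne
    have := Z1_ne
    field_simp
    ring
  have hne : (Z ^ 2 * (1 - Z))⁻¹ ≠ 0 :=
    inv_ne_zero (mul_ne_zero (pow_ne_zero _ Z_ne) Z1_ne)
  have hd : (ww c).natDegree = 4 := by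
    apply le_antisymm hle
    apply le_natDegree_of_ne_zero
    rw [hco]; exact hne
  exact ⟨hd, by rw [← coeff_natDegree, hd, hco]⟩

lemma e_deg (c : ℂ) (J : ℕ) : (ee c J).natDegree = J ∧ (ee c J).leadingCoeff = lam J := by
  obtain ⟨hu1, hu2⟩ := u_deg c
  obtain ⟨hw1, hw2⟩ := w_deg c
  have hlc : (ee c J).leadingCoeff = lam J := by
    unfold ee lam
    rw [leadingCoeff_mul, leadingCoeff_mul, leadingCoeff_pow, leadingCoeff_pow, leadingCoeff_pow,
      hu2, hw2, leadingCoeff_X, one_pow, one_mul]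
    have e : J / 2 = J / 2 % 2 + 2 * (J / 4) := by omega
    generalize J / 2 % 2 = m at e
    generalize J / 4 = k at e
    rw [e, inv_pow, inv_pow, ← mul_inv]
    congr 1
    rw [mul_pow, ← pow_mul, pow_add, mul_assoc]
  have hu0 : uu c ≠ 0 := by
    intro h; rw [h] at hu1; simp at hu1
  have hw0 : ww c ≠ 0 := by
    intro h; rw [h] at hw1; simp at hw1
  refine ⟨?_, hlc⟩
  unfold ee
  rw [natDegree_mul (mul_ne_zero (pow_ne_zero _ X_ne_zero) (pow_ne_zero _ hu0))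
    (pow_ne_zero _ hw0), natDegree_mul (pow_ne_zero _ X_ne_zero) (pow_ne_zero _ hu0),
    natDegree_X_pow, natDegree_pow, natDegree_pow, hu1, hw1]
  omega

end Pool.Agent.H9.Isotriv
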