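import Pool.Agent.H9.Isotriv.Alg1

namespace Pool.Agent.H9.Isotriv

open Polynomial

/-- finite sums -/
noncomputable def psum (c : ℂ) (a : ℕ → ℂ[X]) (N : ℕ) : K[X] :=
  ∑ J ∈ Finset.range N, C (kap (a J)) * ee c J

lemma psum_succ (c : ℂ) (a : ℕ → ℂ[X]) (N : ℕ) :
    psum c a (N + 1) = psum c a N + C (kap (a N)) * ee c N := Finset.sum_range_succ _ _

lemma psum_natDegree (c : ℂ) (a : ℕ → ℂ[X]) (N : ℕ) : psum c a (N + 1) = 0 ∨
    (psum c a (N + 1)).natDegree ≤ N := by
  right
  unfold psum
  refine natDegree_sum_le_of_forall_le _ _ (fun J hJ => ?_)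
  refine (natDegree_C_mul_le _ _).trans ?_
  rw [(e_deg c J).1]
  have := Finset.mem_range.mp hJ
  omega

lemma psum_coeff_lt (c : ℂ) (a : ℕ → ℂ[X]) (N M : ℕ) (h : N ≤ M) :
    (psum c a N).coeff M = 0 := by
  cases N with
  | zero => simp [psum]
  | succ N =>
    rcases psum_natDegree c a N with h1 | h1
    · rw [h1, coeff_zero]
    · exact coeff_eq_zero_of_natDegree_lt (by omega)

lemma psum_coeff (c : ℂ) (a : ℕ → ℂ[X]) (N : ℕ) :
    (psum c a (N + 1)).coeff N = kap (a N) * lam N := by
  rw [psum_succ, coeff_add, psum_coeff_lt c a N N le_rfl, zero_add, coeff_C_mul]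
  congr 1
  obtain ⟨h1, h2⟩ := e_deg c N
  rw [← h2, ← coeff_natDegree, h1]

lemma exists_psum {c : ℂ} {f : K[X]} (hf : f ∈ TT c) : ∃ N a, f = psum c a N := by
  induction hf using Submodule.span_induction with
  | mem x hx =>
    obtain ⟨J, rfl⟩ := hx
    refine ⟨J + 1, fun i => if i = J then 1 else 0, ?_⟩
    unfold psum
    rw [Finset.sum_eq_single J]
    · simp
    · intro b _ hb
      simp [hb]
    · intro h
      exact absurd (Finset.mem_range.mpr (Nat.lt_succ_self J)) h
  | zero => exact ⟨0, 0, by simp [psum]⟩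
  | add x y _ _ hx hy =>
    obtain ⟨N, a, rfl⟩ := hx
    obtain ⟨M, b, rfl⟩ := hy
    refine ⟨N + M, fun i => (if i < N then a i else 0) + (if i < M then b i else 0), ?_⟩
    unfold psum
    have e1 : ∑ J ∈ Finset.range N, C (kap (a J)) * ee c J =
        ∑ J ∈ Finset.range (N + M), C (kap (if J < N then a J else 0)) * ee c J := by
      rw [Finset.sum_subset_zero_on_sdiff (s₁ := Finset.range N) (s₂ := Finset.range (N + M))
        (g := fun J => C (kap (if J < N then a J else 0)) * ee c J)]
      · exact Finset.range_mono (by omega)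
      · intro x hx
        rw [Finset.mem_sdiff, Finset.mem_range, Finset.mem_range] at hx
        rw [if_neg hx.2]; simp
      · intro x hx
        rw [if_pos (Finset.mem_range.mp hx)]
    have e2 : ∑ J ∈ Finset.range M, C (kap (b J)) * ee c J =
        ∑ J ∈ Finset.range (N + M), C (kap (if J < M then b J else 0)) * ee c J := by
      rw [Finset.sum_subset_zero_on_sdiff (s₁ := Finset.range M) (s₂ := Finset.range (N + M))
        (g := fun J => C (kap (if J < M then b J else 0)) * ee c J)]
      · exact Finset.range_mono (by omega)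
      · intro x hx
        rw [Finset.mem_sdiff, Finset.mem_range, Finset.mem_range] at hx
        rw [if_neg hx.2]; simp
      · intro x hx
        rw [if_pos (Finset.mem_range.mp hx)]
    rw [e1, e2, ← Finset.sum_add_distrib]
    refine Finset.sum_congr rfl fun J _ => ?_
    rw [map_add, C_add, add_mul]
  | smul p x _ hx =>
    obtain ⟨N, a, rfl⟩ := hx
    refine ⟨N, fun i => p * a i, ?_⟩
    rw [smul_eq]
    unfold psum
    rw [Finset.mul_sum]
    refine Finset.sum_congr rfl fun J _ => ?_
    rw [map_mul, C_mul, mul_assoc]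

/-- truncation: an element of `y`-degree `< N` is a combination of the first `N` basis vectors -/
lemma exists_psum_of_natDegree_lt {c : ℂ} {f : K[X]} (hf : f ∈ TT c) {N : ℕ}
    (hN : f.natDegree < N) : ∃ a, f = psum c a N := by
  obtain ⟨M, a, ha⟩ := exists_psum hf
  induction M with
  | zero =>
    refine ⟨0, ?_⟩
    rw [ha]
    simp [psum]
  | succ M ih =>
    by_cases h : M + 1 ≤ N
    · -- pad by zero
      refine ⟨fun i => if i < M + 1 then a i else 0, ?_⟩
      rw [ha]
      unfold psum
      rw [Finset.sum_subset_zero_on_sdiff (s₁ := Finset.range (M + 1)) (s₂ := Finset.range N)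
        (g := fun J => C (kap (if J < M + 1 then a J else 0)) * ee c J)]
      · exact Finset.range_mono h
      · intro x hx
        rw [Finset.mem_sdiff, Finset.mem_range, Finset.mem_range] at hx
        rw [if_neg hx.2]; simp
      · intro x hx
        rw [if_pos (Finset.mem_range.mp hx)]
    · have h0 : f.coeff M = 0 := coeff_eq_zero_of_natDegree_lt (by omega)
      rw [ha, psum_coeff] at h0
      have h1 : kap (a M) = 0 := (mul_eq_zero.mp h0).resolve_right (lam_ne M)
      apply ih
      rw [ha, psum_succ, h1, C_0, zero_mul, add_zero]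

/-- the leading coefficient of an element of `T` -/
lemma leadingCoeff_of_mem {c : ℂ} {f : K[X]} (hf : f ∈ TT c) :
    ∃ p : ℂ[X], f.leadingCoeff = kap p * lam f.natDegree := by
  obtain ⟨a, ha⟩ := exists_psum_of_natDegree_lt hf (Nat.lt_succ_self f.natDegree)
  refine ⟨a f.natDegree, ?_⟩
  rw [← psum_coeff c a f.natDegree, ← ha, coeff_natDegree]

/-! ### clearing denominators -/

/-- `a = z(z-1)` -/
noncomputable def aa : ℂ[X] := X * (X - 1)

lemma aa_monic : aa.Monic := monic_X.mul (by simpa using monic_X_sub_C (1 : ℂ))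

lemma aa_natDegree : aa.natDegree = 2 := by
  unfold aa
  have h : (X - 1 : ℂ[X]) = X - C 1 := by rw [C_1]
  rw [h, natDegree_mul X_ne_zero (X_sub_C_ne_zero 1), natDegree_X, natDegree_X_sub_C]

lemma kap_aa : kap aa = Z * (Z - 1) := by
  unfold aa; rw [map_mul, map_sub, map_one]; rfl

lemma kap_aa_ne : kap aa ≠ 0 := by
  intro h
  exact aa_monic.ne_zero (kap_inj (by rw [h, map_zero]))

/-- the inclusion `ℂ[z][y] → ℂ(z)[y]` -/
noncomputable def io : ℂ[X][X] →+* K[X] := mapRingHom kap

lemma io_inj : Function.Injective io := by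
  unfold io
  exact map_injective kap kap_inj

lemma io_C (p : ℂ[X]) : io (C p) = C (kap p) := by simp [io]

lemma io_X : io X = X := by simp [io]

lemma io_coeff (g : ℂ[X][X]) (n : ℕ) : (io g).coeff n = kap (g.coeff n) := by
  simp [io]

lemma io_natDegree (g : ℂ[X][X]) : (io g).natDegree = g.natDegree := by
  simp only [io, coe_mapRingHom]
  exact natDegree_map_eq_of_injective kap_inj g

/-- every element of `T` becomes a polynomial in `z, y` after multiplication by a power of `a` -/
lemma clear {c : ℂ} {f : K[X]} (hf : f ∈ TT c) : ∃ N g, C (kap aa) ^ N * f = io g := by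
  have hmul : ∀ t1 t2 : K[X], (∃ N g, C (kap aa) ^ N * t1 = io g) →
      (∃ N g, C (kap aa) ^ N * t2 = io g) → ∃ N g, C (kap aa) ^ N * (t1 * t2) = io g := by
    rintro t1 t2 ⟨N, g, h1⟩ ⟨M, g', h2⟩
    refine ⟨N + M, g * g', ?_⟩
    rw [map_mul, ← h1, ← h2, pow_add]
    ring
  have hadd : ∀ t1 t2 : K[X], (∃ N g, C (kap aa) ^ N * t1 = io g) →
      (∃ N g, C (kap aa) ^ N * t2 = io g) → ∃ N g, C (kap aa) ^ N * (t1 + t2) = io g := by
    rintro t1 t2 ⟨N, g, h1⟩ ⟨M, g', h2⟩
    refine ⟨N + M, C aa ^ M * g + C aa ^ N * g', ?_⟩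
    rw [map_add, map_mul, map_mul, map_pow, map_pow, io_C, ← h1, ← h2, pow_add]
    ring
  have hpow : ∀ (t : K[X]) (k : ℕ), (∃ N g, C (kap aa) ^ N * t = io g) →
      ∃ N g, C (kap aa) ^ N * (t ^ k) = io g := by
    intro t k ht
    induction k with
    | zero => exact ⟨0, 1, by simp⟩
    | succ k ih => rw [pow_succ]; exact hmul _ _ ih ht
  have hio : ∀ g, ∃ N g', C (kap aa) ^ N * io g = io g' := fun g => ⟨0, g, by simp⟩
  have hu : ∃ N g, C (kap aa) ^ N * uu c = io g := by
    refine ⟨1, C (X - 1) * (X ^ 2 + C (C c)), ?_⟩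
    rw [pow_one, kap_aa, C_mul, map_mul, map_add, map_pow, io_X, io_C, io_C]
    have e : kap (X - 1) = Z - 1 := by rw [map_sub, map_one]; rfl
    have : C Z * C (Z - 1) * uu c = C (Z - 1) * (C Z * uu c) := by ring
    rw [this, rel_u, e]
    rfl
  have hv : ∃ N g, C (kap aa) ^ N * vv c = io g := by
    refine ⟨1, - (C X * (X ^ 4 + C (C c))), ?_⟩
    rw [pow_one, kap_aa, C_mul, map_neg, map_mul, map_add, map_pow, io_X, io_C, io_C]
    have : C Z * C (Z - 1) * vv c = - (C Z * (C (1 - Z) * vv c)) := by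
      simp only [C_sub, C_1]; ring
    rw [this, rel_v]
    rfl
  have hw : ∃ N g, C (kap aa) ^ N * ww c = io g := by
    unfold ww
    refine hadd _ _ (hmul _ _ ?_ (hpow _ _ hu)) hv
    have e : kap (1 + X) = 1 + Z := by rw [map_add, map_one]; rfl
    have : (C (1 + Z) : K[X]) = io (C (1 + X)) := by
      rw [io_C, e]
    rw [this]
    exact hio _
  induction hf using Submodule.span_induction with
  | mem x hx =>
    obtain ⟨J, rfl⟩ := hx
    unfold ee
    refine hmul _ _ (hmul _ _ (hpow _ _ ?_) (hpow _ _ hu)) (hpow _ _ hw)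
    rw [← io_X]; exact hio _
  | zero => exact ⟨0, 0, by simp⟩
  | add x y _ _ hx hy => exact hadd _ _ hx hy
  | smul p x _ hx =>
    have e : C (kap p) = io (C p) := (io_C p).symm
    rw [smul_eq, e]
    exact hmul _ _ (hio _) hx

end Pool.Agent.H9.Isotriv
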