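import Mathlib

/-!
# Fibres of polynomials on `ℂⁿ` and isotriviality
-/

namespace Pool.Agent.H9.Isotriv

open MvPolynomial

/-- The fibre `X_c = p⁻¹(c) ⊂ ℂⁿ`; it carries the subspace topology of `ℂⁿ`. -/
def Fibre {n : ℕ} (p : MvPolynomial (Fin n) ℂ) (c : ℂ) : Set (Fin n → ℂ) :=
  {v | eval v p = c}

/-- The polynomial map `ℂⁿ → ℂⁿ` with components `F 0, …, F (n-1)`. -/
noncomputable def polyMap {n : ℕ} (F : Fin n → MvPolynomial (Fin n) ℂ) (v : Fin n → ℂ) :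
    Fin n → ℂ :=
  fun i => eval v (F i)

/-- Two algebraic subsets `X, Y` of `ℂⁿ` are isomorphic as algebraic varieties: there are
polynomial maps `F : X → Y` and `G : Y → X` inverse to each other. -/
def IsoVar {n : ℕ} (X Y : Set (Fin n → ℂ)) : Prop :=
  ∃ F G : Fin n → MvPolynomial (Fin n) ℂ,
    (∀ v ∈ X, polyMap F v ∈ Y) ∧ (∀ w ∈ Y, polyMap G w ∈ X) ∧
    (∀ v ∈ X, polyMap G (polyMap F v) = v) ∧ (∀ w ∈ Y, polyMap F (polyMap G w) = w)

/-- `p` is isotrivial: there is a nonempty Zariski open set `U ⊂ ℂ` (i.e. a set with finite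
complement) such that all the fibres `X_c`, `c ∈ U`, are pairwise isomorphic as algebraic
varieties. -/
def IsIsotrivial {n : ℕ} (p : MvPolynomial (Fin n) ℂ) : Prop :=
  ∃ U : Set ℂ, U.Nonempty ∧ Uᶜ.Finite ∧ ∀ c ∈ U, ∀ c' ∈ U, IsoVar (Fibre p c) (Fibre p c')

end Pool.Agent.H9.Isotriv
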