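import Pool.Agent.H9.Isotriv.Iso

namespace Pool.Agent.H9.Isotriv

open Polynomial

variable {c c' : ℂ}

lemma io_pow_add (k : ℕ) (d : ℂ) : io (X ^ k + C (C d)) = X ^ k + cc d := by
  rw [map_add, map_pow, io_X, io_C]; rfl

/-- evaluation of elements of `ℂ[z][y]` at `z = r`, `y = s` -/
noncomputable def ev (r s : ℂ) : ℂ[X][X] →+* ℂ :=
  (evalRingHom s).comp (mapRingHom (evalRingHom r))

lemma ev_C (r s : ℂ) (p : ℂ[X]) : ev r s (C p) = eval r p := by simp [ev]

lemma ev_X (r s : ℂ) : ev r s X = s := by simp [ev]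

noncomputable def ccR (c d : ℂ) : RR c := iR c (C (C d))

lemma Phi_cc (Φ : RR c ≃ₐ[ℂ] RR c') (d : ℂ) : Φ (ccR c d) = ccR c' d := by
  have h1 : ∀ b : ℂ, ccR b d = algebraMap ℂ (RR b) d := by
    intro b
    apply Subtype.ext
    change io (C (C d)) = algebraMap ℂ K[X] d
    rw [io_C, algMap]
  rw [h1, h1]
  exact Φ.commutes d

noncomputable def uR (c : ℂ) : RR c := ⟨uu c, uu_mem c⟩

noncomputable def vR (c : ℂ) : RR c := ⟨vv c, vv_mem c⟩

lemma rel_uR (c : ℂ) : zR c * uR c = yR c ^ 2 + ccR c c := by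
  apply Subtype.ext
  change (zR c : K[X]) * uu c = (yR c : K[X]) ^ 2 + io (C (C c))
  rw [zR_val, yR_val, rel_u, io_C]
  rfl

lemma rel_vR (c : ℂ) : iR c (C (1 - X)) * vR c = yR c ^ 4 + ccR c c := by
  apply Subtype.ext
  change io (C (1 - X)) * vv c = (yR c : K[X]) ^ 4 + io (C (C c))
  rw [yR_val, io_C, io_C, map_sub, map_one]
  exact rel_v c

lemma coeffG2 (α0 : ℂ) (B : ℂ[X]) (c : ℂ) :
    ((C B + C (C α0) * X) ^ 2 + C (C c) : ℂ[X][X]).natDegree ≤ 2 ∧
    ((C B + C (C α0) * X) ^ 2 + C (C c) : ℂ[X][X]).coeff 2 = C (α0 ^ 2) := by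
  have h : ((C B + C (C α0) * X) ^ 2 + C (C c) : ℂ[X][X]) =
      C (C (α0 ^ 2)) * X ^ 2 + C (C 2 * C α0 * B) * X + C (B ^ 2 + C c) := by
    have c2 : (C (C 2) : ℂ[X][X]) = 2 := by rw [map_ofNat C 2, map_ofNat C 2]
    simp only [C_mul, C_add, C_pow, c2]
    ring
  rw [h]
  constructor
  · compute_degree
  · simp only [coeff_add, coeff_C_mul, coeff_X_pow, coeff_X, coeff_C]
    norm_num

lemma coeffG4 (α0 : ℂ) (B : ℂ[X]) (c : ℂ) :
    ((C B + C (C α0) * X) ^ 4 + C (C c) : ℂ[X][X]).natDegree ≤ 4 ∧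
    ((C B + C (C α0) * X) ^ 4 + C (C c) : ℂ[X][X]).coeff 4 = C (α0 ^ 4) := by
  have h : ((C B + C (C α0) * X) ^ 4 + C (C c) : ℂ[X][X]) =
      C (C (α0 ^ 4)) * X ^ 4 + C (C 4 * C α0 ^ 3 * B) * X ^ 3 + C (C 6 * C α0 ^ 2 * B ^ 2) * X ^ 2
        + C (C 4 * C α0 * B ^ 3) * X + C (B ^ 4 + C c) := by
    have c4 : (C (C 4) : ℂ[X][X]) = 4 := by rw [map_ofNat C 4, map_ofNat C 4]
    have c6 : (C (C 6) : ℂ[X][X]) = 6 := by rw [map_ofNat C 6, map_ofNat C 6]
    simp only [C_mul, C_add, C_pow, c4, c6]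
    ring
  rw [h]
  constructor
  · compute_degree
  · simp only [coeff_add, coeff_C_mul, coeff_X_pow, coeff_X, coeff_C]
    norm_num

/-- degree and leading coefficient of a quotient -/
lemma quot_lead {c : ℂ} {U : K[X]} (hU : U ∈ TT c) {n : ℕ} {k : ℂ[X]} {G : ℂ[X][X]} {a : ℂ}
    (hk : k ≠ 0) (ha : a ≠ 0) (h : C (kap k) * U = io G) (h1 : G.natDegree ≤ n)
    (h2 : G.coeff n = C a) :
    ∃ p : ℂ[X], k * p = C a * (X ^ (n / 2) * (1 - X) ^ (n / 4)) := by
  have hk' : kap k ≠ 0 := by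
    intro h0; exact hk (kap_inj (by rw [h0, map_zero]))
  have hGd : G.natDegree = n :=
    le_antisymm h1 (le_natDegree_of_ne_zero (by rw [h2]; exact C_ne_zero.mpr ha))
  have hUd : U.natDegree = n := by
    rw [← natDegree_C_mul (p := U) hk', h, io_natDegree, hGd]
  obtain ⟨p, hp⟩ := leadingCoeff_of_mem hU
  refine ⟨p, kap_inj ?_⟩
  have h3 : kap k * U.leadingCoeff = kap (C a) := by
    have := congrArg (fun q => q.coeff n) h
    beta_reduce at this
    rw [coeff_C_mul, io_coeff, h2] at this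
    rw [← this, ← hUd, coeff_natDegree]
  rw [hp, hUd] at h3
  have e : lam n * (Z ^ (n / 2) * (1 - Z) ^ (n / 4)) = 1 := by
    unfold lam
    exact inv_mul_cancel₀ (mul_ne_zero (pow_ne_zero _ Z_ne) (pow_ne_zero _ Z1_ne))
  rw [map_mul, map_mul, map_mul, map_pow, map_pow, map_sub, map_one, ← h3]
  change kap k * kap p = kap k * (kap p * lam n) * (Z ^ (n / 2) * (1 - Z) ^ (n / 4))
  calc kap k * kap p
      = kap k * kap p * (lam n * (Z ^ (n / 2) * (1 - Z) ^ (n / 4))) := by rw [e, mul_one]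
    _ = _ := by ring

theorem eq_of_equiv (Φ : RR c ≃ₐ[ℂ] RR c') (hc' : c' ≠ 0) : c = c' := by
  obtain ⟨ζ, hζ⟩ := Phi_z Φ
  have hζd := zeta_deg Φ hζ
  obtain ⟨α, B, hy⟩ := Phi_y Φ
  obtain ⟨α0, hα0, rfl⟩ := alpha_unit Φ hy
  -- images of the relations
  have hU := congrArg Φ (rel_uR c)
  rw [map_mul, map_add, map_pow, Phi_cc, hζ, hy] at hU
  have hV := congrArg Φ (rel_vR c)
  rw [map_mul, map_add, map_pow, Phi_cc, Phi_C Φ hζ, hy] at hV
  set U : K[X] := ((Φ (uR c) : RR c') : K[X]) with hUdef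
  set V : K[X] := ((Φ (vR c) : RR c') : K[X]) with hVdef
  have hUm : U ∈ TT c' := RR_le (Subtype.mem _)
  have hVm : V ∈ TT c' := RR_le (Subtype.mem _)
  have hU' : C (kap ζ) * U = io ((C B + C (C α0) * X) ^ 2 + C (C c)) := by
    have := congrArg Subtype.val hU
    change io (C ζ) * U = (io (C B + C (C α0) * X)) ^ 2 + io (C (C c)) at this
    rw [io_C] at this
    rw [this, ← map_pow, ← map_add]
  have hV' : C (kap ((1 - X : ℂ[X]).comp ζ)) * V = io ((C B + C (C α0) * X) ^ 4 + C (C c)) := by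
    have := congrArg Subtype.val hV
    change io (C ((1 - X : ℂ[X]).comp ζ)) * V = (io (C B + C (C α0) * X)) ^ 4
      + io (C (C c)) at this
    rw [io_C] at this
    rw [this, ← map_pow, ← map_add]
  have hcomp : (1 - X : ℂ[X]).comp ζ = 1 - ζ := by simp
  rw [hcomp] at hV'
  have hζ0 : ζ ≠ 0 := by
    rintro rfl; simp at hζd
  have hζ1 : (1 - ζ) ≠ 0 := by
    intro h
    have : ζ = 1 := (sub_eq_zero.mp h).symm
    rw [this] at hζd; simp at hζd
  obtain ⟨hG2, hG2'⟩ := coeffG2 α0 B c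
  obtain ⟨hG4, hG4'⟩ := coeffG4 α0 B c
  obtain ⟨p2, hp2⟩ := quot_lead hUm hζ0 (pow_ne_zero 2 hα0) hU' hG2 hG2'
  obtain ⟨p4, hp4⟩ := quot_lead hVm hζ1 (pow_ne_zero 4 hα0) hV' hG4 hG4'
  -- `ζ = X`
  obtain ⟨μ, hμ, ν, hζμ⟩ : ∃ μ : ℂ, μ ≠ 0 ∧ ∃ ν : ℂ, ζ = C μ * X + C ν := by
    refine ⟨ζ.coeff 1, ?_, ζ.coeff 0, ?_⟩
    · rw [← hζd, coeff_natDegree]
      exact leadingCoeff_ne_zero.mpr hζ0
    · exact eq_X_add_C_of_natDegree_le_one hζd.le
  have hν : ν = 0 := by
    have h1 := congrArg (eval (-ν / μ)) hp2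
    rw [hζμ] at h1
    simp only [eval_mul, eval_add, eval_C, eval_X, eval_pow, eval_sub, eval_one] at h1
    have h2 : μ * (-ν / μ) + ν = 0 := by field_simp; ring
    rw [h2, zero_mul] at h1
    norm_num at h1
    rcases h1 with h1 | h1
    · exact absurd h1 hα0
    · rcases h1 with h1 | h1
      · exact h1
      · exact absurd h1 hμ
  have hμ1 : μ = 1 := by
    have h1 := congrArg (eval (1 / μ)) hp4
    rw [hζμ, hν] at h1
    simp only [eval_mul, eval_add, eval_C, eval_X, eval_pow, eval_sub, eval_one] at h1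
    have h2 : 1 - (μ * (1 / μ) + 0) = 0 := by field_simp; ring
    rw [h2, zero_mul] at h1
    norm_num at h1
    rcases h1 with h1 | h1
    · exact absurd h1 hα0
    · rcases h1 with h1 | h1
      · exact absurd h1 hμ
      · have h3 : μ⁻¹ = 1 := (sub_eq_zero.mp h1).symm
        rw [inv_eq_one] at h3
        exact h3
  have hζX : ζ = X := by rw [hζμ, hν, hμ1]; simp
  subst hζX
  clear hp2 hp4 hζμ hcomp hζd hζ0 hζ1
  -- first comparison
  have hb : eval 0 B ^ 2 + c - α0 ^ 2 * c' = 0 := by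
    set g : K[X] := U - C (kap (C (α0 ^ 2))) * uu c' with hg
    have hgm : g ∈ TT c' := Submodule.sub_mem _ hUm (kap_mul_mem _ (RR_le (uu_mem c')))
    have hg1 : C (kap X) * g = io (C (C 2 * C α0 * B) * X + C (B ^ 2 + C c - C (α0 ^ 2) * C c')) := by
      have e1 : C (kap X) * g = C (kap X) * U - C (kap (C (α0 ^ 2))) * (C Z * uu c') := by
        rw [hg]; change C Z * (U - _) = C Z * U - _; ring
      rw [e1, hU', rel_u]
      have e2 : C (kap (C (α0 ^ 2))) * (X ^ 2 + cc c') =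
          io (C (C (α0 ^ 2)) * (X ^ 2 + C (C c'))) := by
        rw [map_mul, io_C, io_pow_add]
      rw [e2, ← map_sub]
      congr 1
      have c2 : (C (C 2) : ℂ[X][X]) = 2 := by rw [map_ofNat C 2, map_ofNat C 2]
      simp only [C_mul, C_add, C_sub, C_pow, c2]
      ring
    have hgd : g.natDegree < 2 := by
      have hk' : kap X ≠ 0 := Z_ne
      rw [← natDegree_C_mul (p := g) hk', hg1, io_natDegree]
      have : (C (C 2 * C α0 * B) * X + C (B ^ 2 + C c - C (α0 ^ 2) * C c') : ℂ[X][X]).natDegree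
          ≤ 1 := by compute_degree
      omega
    obtain ⟨a, ha⟩ := exists_psum_of_natDegree_lt hgm hgd
    have ha' : g = io (C (a 0) + C (a 1) * X) := by
      rw [ha]
      unfold psum
      have e0 := ee0 c' 0
      have e1 := ee1 c' 0
      rw [mul_zero, pow_zero] at e0
      rw [mul_zero, zero_add, pow_zero, mul_one] at e1
      rw [Finset.sum_range_succ, Finset.sum_range_one, e0, e1, mul_one, map_add, map_mul, io_C,
        io_C, io_X]
    rw [ha', ← io_C, ← map_mul] at hg1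
    have h1 := congrArg (ev 0 0) (io_inj hg1)
    simp only [map_mul, map_add, ev_C, ev_X, eval_X, eval_add, eval_sub, eval_mul, eval_C,
      eval_pow, zero_mul, mul_zero, zero_add] at h1
    exact h1.symm
  have hB0 : eval 0 B = 0 := by
    set g : K[X] := U - C (kap (C (α0 ^ 2))) * uu c' with hg
    have hgm : g ∈ TT c' := Submodule.sub_mem _ hUm (kap_mul_mem _ (RR_le (uu_mem c')))
    have hg1 : C (kap X) * g = io (C (C 2 * C α0 * B) * X + C (B ^ 2 + C c - C (α0 ^ 2) * C c')) := by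
      have e1 : C (kap X) * g = C (kap X) * U - C (kap (C (α0 ^ 2))) * (C Z * uu c') := by
        rw [hg]; change C Z * (U - _) = C Z * U - _; ring
      rw [e1, hU', rel_u]
      have e2 : C (kap (C (α0 ^ 2))) * (X ^ 2 + cc c') =
          io (C (C (α0 ^ 2)) * (X ^ 2 + C (C c'))) := by
        rw [map_mul, io_C, io_pow_add]
      rw [e2, ← map_sub]
      congr 1
      have c2 : (C (C 2) : ℂ[X][X]) = 2 := by rw [map_ofNat C 2, map_ofNat C 2]
      simp only [C_mul, C_add, C_sub, C_pow, c2]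
      ring
    have hgd : g.natDegree < 2 := by
      have hk' : kap X ≠ 0 := Z_ne
      rw [← natDegree_C_mul (p := g) hk', hg1, io_natDegree]
      have : (C (C 2 * C α0 * B) * X + C (B ^ 2 + C c - C (α0 ^ 2) * C c') : ℂ[X][X]).natDegree
          ≤ 1 := by compute_degree
      omega
    obtain ⟨a, ha⟩ := exists_psum_of_natDegree_lt hgm hgd
    have ha' : g = io (C (a 0) + C (a 1) * X) := by
      rw [ha]
      unfold psum
      have e0 := ee0 c' 0
      have e1 := ee1 c' 0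
      rw [mul_zero, pow_zero] at e0
      rw [mul_zero, zero_add, pow_zero, mul_one] at e1
      rw [Finset.sum_range_succ, Finset.sum_range_one, e0, e1, mul_one, map_add, map_mul, io_C,
        io_C, io_X]
    rw [ha', ← io_C, ← map_mul] at hg1
    have h1 := congrArg (ev 0 1) (io_inj hg1)
    simp only [map_mul, map_add, ev_C, ev_X, eval_X, eval_add, eval_sub, eval_mul, eval_C,
      eval_pow, zero_mul, mul_one, zero_add] at h1
    rw [hb, add_zero] at h1
    have h2 : (2 * α0) * eval 0 B = 0 := h1.symm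
    rcases mul_eq_zero.mp h2 with h3 | h3
    · exact absurd h3 (mul_ne_zero two_ne_zero hα0)
    · exact h3
  -- second comparison
  have hs : ∀ s : ℂ, (eval 1 B + α0 * s) ^ 4 + c - α0 ^ 4 * (s ^ 4 + c') = 0 := by
    intro s
    set g : K[X] := V - C (kap (C (α0 ^ 4))) * vv c' with hg
    have hgm : g ∈ TT c' := Submodule.sub_mem _ hVm (kap_mul_mem _ (RR_le (vv_mem c')))
    have e1Z : kap (1 - X) = 1 - Z := by rw [map_sub, map_one]; rfl
    have hg1 : C (kap (1 - X)) * g = io ((C B + C (C α0) * X) ^ 4 + C (C c)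
        - C (C (α0 ^ 4)) * (X ^ 4 + C (C c'))) := by
      have e1 : C (kap (1 - X)) * g = C (kap (1 - X)) * V
          - C (kap (C (α0 ^ 4))) * (C (1 - Z) * vv c') := by
        rw [hg, e1Z]; ring
      rw [e1, hV', rel_v]
      have e2 : C (kap (C (α0 ^ 4))) * (X ^ 4 + cc c') =
          io (C (C (α0 ^ 4)) * (X ^ 4 + C (C c'))) := by
        rw [map_mul, io_C, io_pow_add]
      rw [e2, ← map_sub]
    have hgd : g.natDegree < 4 := by
      have hk' : kap (1 - X) ≠ 0 := by rw [e1Z]; exact Z1_ne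
      rw [← natDegree_C_mul (p := g) hk', hg1, io_natDegree]
      have h6 : ((C B + C (C α0) * X) ^ 4 + C (C c) - C (C (α0 ^ 4)) * (X ^ 4 + C (C c'))
          : ℂ[X][X]) = C (C 4 * C α0 ^ 3 * B) * X ^ 3 + C (C 6 * C α0 ^ 2 * B ^ 2) * X ^ 2
          + C (C 4 * C α0 * B ^ 3) * X + C (B ^ 4 + C c - C (α0 ^ 4) * C c') := by
        have c4 : (C (C 4) : ℂ[X][X]) = 4 := by rw [map_ofNat C 4, map_ofNat C 4]
        have c6 : (C (C 6) : ℂ[X][X]) = 6 := by rw [map_ofNat C 6, map_ofNat C 6]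
        simp only [C_mul, C_add, C_sub, C_pow, c4, c6]
        ring
      rw [h6]
      have : (C (C 4 * C α0 ^ 3 * B) * X ^ 3 + C (C 6 * C α0 ^ 2 * B ^ 2) * X ^ 2
          + C (C 4 * C α0 * B ^ 3) * X + C (B ^ 4 + C c - C (α0 ^ 4) * C c') : ℂ[X][X]).natDegree
          ≤ 3 := by compute_degree
      omega
    obtain ⟨a, ha⟩ := exists_psum_of_natDegree_lt hgm hgd
    have ha' : C (kap X) * g = io (C (X * a 0) + C (X * a 1) * X + C (a 2) * (X ^ 2 + C (C c'))
        + C (a 3) * X * (X ^ 2 + C (C c'))) := by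
      rw [ha]
      unfold psum
      have e0 := ee0 c' 0
      have e1 := ee1 c' 0
      have e2 := ee2 c' 0
      have e3 := ee3 c' 0
      rw [mul_zero, pow_zero] at e0
      rw [mul_zero, zero_add, pow_zero, mul_one] at e1 e2 e3
      rw [Finset.sum_range_succ, Finset.sum_range_succ, Finset.sum_range_succ,
        Finset.sum_range_one, e0, e1, e2, e3]
      have hu : io (X ^ 2 + C (C c')) = C Z * uu c' := by
        rw [rel_u, map_add, map_pow, io_X, io_C]; rfl
      have e5 : (C (kap X) : K[X]) = C Z := rfl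
      generalize (X ^ 2 + C (C c') : ℂ[X][X]) = W at hu
      simp only [map_add, map_mul, io_C, io_X, hu, e5]
      ring
    have h7 : io (C (1 - X) * (C (X * a 0) + C (X * a 1) * X + C (a 2) * (X ^ 2 + C (C c'))
        + C (a 3) * X * (X ^ 2 + C (C c')))) = io (C X * ((C B + C (C α0) * X) ^ 4 + C (C c)
        - C (C (α0 ^ 4)) * (X ^ 4 + C (C c')))) := by
      rw [map_mul io, ← ha', map_mul io (C X), ← hg1, io_C, io_C]
      ring
    have h1 := congrArg (ev 1 s) (io_inj h7)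
    simp only [map_add, map_sub, map_mul, map_pow, map_one, ev_C, ev_X, eval_X, eval_sub,
      eval_one, eval_C, sub_self, zero_mul, one_mul] at h1
    exact h1.symm
  have hB1 : eval 1 B = 0 := by
    have h0 := hs 0
    have h1 := hs 1
    have h2 := hs (-1)
    have h3 : 12 * α0 ^ 2 * eval 1 B ^ 2 = 0 := by linear_combination h1 + h2 - 2 * h0
    have h4 : (12 : ℂ) * α0 ^ 2 ≠ 0 := mul_ne_zero (by norm_num) (pow_ne_zero 2 hα0)
    rcases mul_eq_zero.mp h3 with h5 | h5
    · exact absurd h5 h4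
    · exact pow_eq_zero_iff (by norm_num) |>.mp h5
  have h1 : c = α0 ^ 2 * c' := by
    rw [hB0] at hb; linear_combination hb
  have h2 : c = α0 ^ 4 * c' := by
    have := hs 0
    rw [hB1] at this; linear_combination this
  have h3 : α0 ^ 2 = 1 := by
    have h4 : (α0 ^ 2 * c') * (α0 ^ 2 - 1) = 0 := by
      linear_combination h1 - h2
    rcases mul_eq_zero.mp h4 with h5 | h5
    · exact absurd h5 (mul_ne_zero (pow_ne_zero 2 hα0) hc')
    · linear_combination h5
  rw [h1, h3, one_mul]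

end Pool.Agent.H9.Isotriv
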