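import Pool.Agent.H9.Isotriv.Defs
import Pool.Agent.H9.Isotriv.Iso2

namespace Pool.Agent.H9.Isotriv

open MvPolynomial

/-- the polynomial `z(z-1)x - (y²(1-z) + y⁴z)` -/
noncomputable def pp : MvPolynomial (Fin 3) ℂ :=
  (X 2 * (X 2 - 1)) * X 0 + (-(X 1 ^ 2 * (1 - X 2)) - X 1 ^ 4 * X 2)

lemma eval_pp (v : Fin 3 → ℂ) : eval v pp =
    v 2 * (v 2 - 1) * v 0 - v 1 ^ 2 * (1 - v 2) - v 1 ^ 4 * v 2 := by
  simp [pp]; ring

lemma mem_fibre (v : Fin 3 → ℂ) (c : ℂ) : v ∈ Fibre pp c ↔
    v 2 * (v 2 - 1) * v 0 - v 1 ^ 2 * (1 - v 2) - v 1 ^ 4 * v 2 = c := by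
  unfold Fibre
  rw [Set.mem_ofPred_eq, eval_pp]

lemma irr_pp (c : ℂ) : Irreducible (pp - C c) := by
  have e : pp - C c = (X 2 * (X 2 - 1)) * X 0 + (-(X 1 ^ 2 * (1 - X 2)) - X 1 ^ 4 * X 2 - C c) := by
    unfold pp; ring
  rw [e]
  have hv1 : ∀ i : Fin 3, i ≠ 0 → (0 : Fin 3) ∉ (X i : MvPolynomial (Fin 3) ℂ).vars := by
    intro i hi h
    rw [vars_X, Finset.mem_singleton] at h
    exact hi h.symm
  have hmul : ∀ p q : MvPolynomial (Fin 3) ℂ, (0 : Fin 3) ∉ p.vars → (0 : Fin 3) ∉ q.vars →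
      (0 : Fin 3) ∉ (p * q).vars := by
    intro p q hp hq h
    rcases Finset.mem_union.mp (vars_mul _ _ h) with h | h
    · exact hp h
    · exact hq h
  have hsub : ∀ p q : MvPolynomial (Fin 3) ℂ, (0 : Fin 3) ∉ p.vars → (0 : Fin 3) ∉ q.vars →
      (0 : Fin 3) ∉ (p - q).vars := by
    intro p q hp hq h
    rcases Finset.mem_union.mp (vars_sub_subset _ h) with h | h
    · exact hp h
    · exact hq h
  have hpow : ∀ (p : MvPolynomial (Fin 3) ℂ) (k : ℕ), (0 : Fin 3) ∉ p.vars →
      (0 : Fin 3) ∉ (p ^ k).vars := fun p k hp h => hp (vars_pow _ _ h)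
  have hone : (0 : Fin 3) ∉ (1 : MvPolynomial (Fin 3) ℂ).vars := by simp
  have hC : ∀ a : ℂ, (0 : Fin 3) ∉ (C a : MvPolynomial (Fin 3) ℂ).vars := by simp
  apply irreducible_mul_X_add
  · intro h
    have := congrArg (eval ![0, 0, 2]) h
    simp at this
    norm_num at this
  · exact hmul _ _ (hv1 2 (by decide)) (hsub _ _ (hv1 2 (by decide)) hone)
  · refine hsub _ _ (hsub _ _ ?_ (hmul _ _ (hpow _ _ (hv1 1 (by decide))) (hv1 2 (by decide))))
      (hC c)
    rw [vars_neg]
    exact hmul _ _ (hpow _ _ (hv1 1 (by decide))) (hsub _ _ hone (hv1 2 (by decide)))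
  · -- coprimality
    have h2 : Irreducible (X 2 : MvPolynomial (Fin 3) ℂ) := (X_prime).irreducible
    have h3 : Irreducible (X 2 - 1 : MvPolynomial (Fin 3) ℂ) := by
      have : (X 2 - 1 : MvPolynomial (Fin 3) ℂ) = 1 * X 2 + (-1) := by ring
      rw [this]
      apply irreducible_mul_X_add
      · exact one_ne_zero
      · simp
      · rw [vars_neg]; simp
      · exact isRelPrime_one_left
    have hr2 : IsRelPrime (X 2 : MvPolynomial (Fin 3) ℂ)
        (-(X 1 ^ 2 * (1 - X 2)) - X 1 ^ 4 * X 2 - C c) := by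
      rw [h2.isRelPrime_iff_not_dvd]
      rintro ⟨g, hg⟩
      have e0 := congrArg (eval ![0, 0, 0]) hg
      have e1 := congrArg (eval ![0, 1, 0]) hg
      simp at e0 e1
      rw [e0] at e1
      norm_num at e1
    have hr3 : IsRelPrime (X 2 - 1 : MvPolynomial (Fin 3) ℂ)
        (-(X 1 ^ 2 * (1 - X 2)) - X 1 ^ 4 * X 2 - C c) := by
      rw [h3.isRelPrime_iff_not_dvd]
      rintro ⟨g, hg⟩
      have e0 := congrArg (eval ![0, 0, 1]) hg
      have e1 := congrArg (eval ![0, 1, 1]) hg
      simp at e0 e1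
      rw [e0] at e1
      norm_num at e1
    exact IsRelPrime.mul_left hr2 hr3

/-! ### contractibility of `X₀` -/

/-- the projection to the `z`-axis -/
def toAxis : C(Fibre pp 0, ℂ) :=
  ⟨fun v => v.1 2, (continuous_apply 2).comp continuous_subtype_val⟩

/-- the `z`-axis lies on the surface -/
def ofAxis : C(ℂ, Fibre pp 0) :=
  ⟨fun z => ⟨![0, 0, z], by rw [mem_fibre]; simp⟩, by
    refine Continuous.subtype_mk ?_ _
    refine continuous_pi fun i => ?_
    fin_cases i
    · exact continuous_const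
    · exact continuous_const
    · exact continuous_id⟩

/-- the deformation `(u, v, y, z) ↦ (s² u, s⁴ v, s y, z)`, where `u = y² - y⁴ - x(1-z)`,
`v = y⁴ - y² - xz` and `x = -(u + v)` -/
noncomputable def deform : (ofAxis.comp toAxis).Homotopy (ContinuousMap.id (Fibre pp 0)) where
  toFun sv := ⟨![-(((sv.1 : ℝ) : ℂ) ^ 2 * (sv.2.1 1 ^ 2 - sv.2.1 1 ^ 4
      - sv.2.1 0 * (1 - sv.2.1 2)) + ((sv.1 : ℝ) : ℂ) ^ 4 * (sv.2.1 1 ^ 4 - sv.2.1 1 ^ 2
      - sv.2.1 0 * sv.2.1 2)), ((sv.1 : ℝ) : ℂ) * sv.2.1 1, sv.2.1 2], by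
    have h := (mem_fibre _ _).mp sv.2.2
    rw [mem_fibre]
    change sv.2.1 2 * (sv.2.1 2 - 1) * (-(((sv.1 : ℝ) : ℂ) ^ 2 * (sv.2.1 1 ^ 2 - sv.2.1 1 ^ 4
      - sv.2.1 0 * (1 - sv.2.1 2)) + ((sv.1 : ℝ) : ℂ) ^ 4 * (sv.2.1 1 ^ 4 - sv.2.1 1 ^ 2
      - sv.2.1 0 * sv.2.1 2))) - (((sv.1 : ℝ) : ℂ) * sv.2.1 1) ^ 2 * (1 - sv.2.1 2)
      - (((sv.1 : ℝ) : ℂ) * sv.2.1 1) ^ 4 * sv.2.1 2 = 0
    linear_combination (((sv.1 : ℝ) : ℂ) ^ 2 * (1 - sv.2.1 2)
      + ((sv.1 : ℝ) : ℂ) ^ 4 * sv.2.1 2) * h⟩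
  continuous_toFun := by
    have hc : ∀ i : Fin 3, Continuous fun sv : unitInterval × Fibre pp 0 => sv.2.1 i :=
      fun i => (continuous_apply i).comp (continuous_subtype_val.comp continuous_snd)
    have hs : Continuous fun sv : unitInterval × Fibre pp 0 => ((sv.1 : ℝ) : ℂ) :=
      Complex.continuous_ofReal.comp (continuous_subtype_val.comp continuous_fst)
    refine Continuous.subtype_mk ?_ _
    refine continuous_pi fun i => ?_
    fin_cases i
    · exact (((hs.pow 2).mul ((((hc 1).pow 2).sub ((hc 1).pow 4)).sub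
        ((hc 0).mul (continuous_const.sub (hc 2))))).add ((hs.pow 4).mul
        ((((hc 1).pow 4).sub ((hc 1).pow 2)).sub ((hc 0).mul (hc 2))))).neg
    · exact hs.mul (hc 1)
    · exact hc 2
  map_zero_left v := by
    apply Subtype.ext
    funext i
    fin_cases i <;> simp [ofAxis, toAxis]
  map_one_left v := by
    apply Subtype.ext
    funext i
    fin_cases i
    · simp; ring
    · simp
    · simp

lemma contractible_pp : ContractibleSpace (Fibre pp 0) := by
  let e : ContinuousMap.HomotopyEquiv (Fibre pp 0) ℂ :=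
    { toFun := toAxis
      invFun := ofAxis
      left_inv := ⟨deform⟩
      right_inv := by
        have : toAxis.comp ofAxis = ContinuousMap.id ℂ := by
          ext z; simp [toAxis, ofAxis]
        rw [this] }
  exact e.contractibleSpace

/-! ### functions on the fibres -/

/-- the inclusion `ℂ[z][y] → ℂ[x, y, z]` -/
noncomputable def jj : Polynomial (Polynomial ℂ) →+* MvPolynomial (Fin 3) ℂ :=
  Polynomial.eval₂RingHom ((Polynomial.aeval (X 2 : MvPolynomial (Fin 3) ℂ)).toRingHom) (X 1)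

lemma jj_C (p : Polynomial ℂ) : jj (Polynomial.C p) = Polynomial.aeval (X 2) p := by
  simp [jj]

lemma jj_X : jj Polynomial.X = X 1 := by simp [jj]

lemma jj_z : jj (Polynomial.C Polynomial.X) = X 2 := by rw [jj_C, Polynomial.aeval_X]

lemma th_jj (c : ℂ) (g : Polynomial (Polynomial ℂ)) : th c (jj g) = io g := by
  have : (th c : MvPolynomial (Fin 3) ℂ →+* Polynomial K).comp jj = io := by
    apply Polynomial.ringHom_ext'
    · apply Polynomial.ringHom_ext
      · intro a
        simp only [RingHom.comp_apply, jj_C, Polynomial.aeval_C, io_C]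
        rw [← algMap]
        exact (th c).commutes a
      · simp only [RingHom.comp_apply, jj_z, io_C]
        exact th_X2 c
    · simp only [RingHom.comp_apply, jj_X, io_X]
      exact th_X1 c
  exact DFunLike.congr_fun this g

lemma eval_jj (v : Fin 3 → ℂ) (g : Polynomial (Polynomial ℂ)) : eval v (jj g) = ev (v 2) (v 1) g := by
  have : (eval v).comp jj = ev (v 2) (v 1) := by
    apply Polynomial.ringHom_ext'
    · apply Polynomial.ringHom_ext
      · intro a
        simp only [RingHom.comp_apply, jj_C, Polynomial.aeval_C, ev_C]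
        simp
      · simp only [RingHom.comp_apply, jj_z, ev_C]
        simp
    · simp only [RingHom.comp_apply, jj_X, ev_X]
      simp
  exact DFunLike.congr_fun this g

/-- `A = z(z-1)` -/
noncomputable def AA : MvPolynomial (Fin 3) ℂ := X 2 * (X 2 - 1)

lemma AA_jj : AA = jj (Polynomial.C aa) := by
  rw [jj_C]
  simp [AA, aa]

lemma reduce (c : ℂ) (f : MvPolynomial (Fin 3) ℂ) :
    ∃ (N : ℕ) (g : Polynomial (Polynomial ℂ)) (h : MvPolynomial (Fin 3) ℂ),
      AA ^ N * f = jj g + h * (pp - C c) := by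
  induction f using MvPolynomial.induction_on with
  | C a =>
    refine ⟨0, Polynomial.C (Polynomial.C a), 0, ?_⟩
    rw [jj_C, Polynomial.aeval_C]
    simp
  | add p q hp hq =>
    obtain ⟨N, g, h, e⟩ := hp
    obtain ⟨M, g', h', e'⟩ := hq
    refine ⟨N + M, Polynomial.C aa ^ M * g + Polynomial.C aa ^ N * g', AA ^ M * h + AA ^ N * h', ?_⟩
    rw [map_add, map_mul, map_mul, map_pow, map_pow, ← AA_jj, pow_add]
    linear_combination AA ^ M * e + AA ^ N * e'
  | mul_X p i hp =>
    obtain ⟨N, g, h, e⟩ := hp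
    fin_cases i
    · refine ⟨N + 1, g * (Polynomial.C (Polynomial.C c) + (Polynomial.X ^ 2
        * (1 - Polynomial.C Polynomial.X) + Polynomial.X ^ 4 * Polynomial.C Polynomial.X)),
        h * AA * X 0 + jj g, ?_⟩
      change AA ^ (N + 1) * (p * X 0) = _
      have hc : jj (Polynomial.C (Polynomial.C c)) = C c := by
        rw [jj_C, Polynomial.aeval_C]; rfl
      rw [map_mul, map_add, map_add, map_mul, map_mul, map_sub, map_one, map_pow, map_pow, jj_X,
        jj_z, hc]
      have e2 : AA * X 0 = (pp - C c) + (C c + (X 1 ^ 2 * (1 - X 2) + X 1 ^ 4 * X 2)) := by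
        unfold pp AA; ring
      linear_combination AA * X 0 * e + jj g * e2
    · refine ⟨N, g * Polynomial.X, h * X 1, ?_⟩
      change AA ^ N * (p * X 1) = _
      rw [map_mul, jj_X]
      linear_combination X 1 * e
    · refine ⟨N, g * Polynomial.C Polynomial.X, h * X 2, ?_⟩
      change AA ^ N * (p * X 2) = _
      rw [map_mul, jj_z]
      linear_combination X 2 * e

lemma th_pp (c : ℂ) : th c (pp - C c) = 0 := by
  have hC : th c (C c) = cc c := by
    have : th c (C c) = algebraMap ℂ (Polynomial K) c := (th c).commutes c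
    rw [this, algMap]; rfl
  have h := rel_x c
  unfold pp
  simp only [map_sub, map_add, map_mul, map_pow, map_neg, map_one, th_X0, th_X1, th_X2, hC]
  simp only [Polynomial.C_mul, Polynomial.C_sub, Polynomial.C_1] at h
  linear_combination h

lemma th_AA (c : ℂ) : th c AA ≠ 0 := by
  rw [AA_jj, th_jj, io_C]
  exact Polynomial.C_ne_zero.mpr kap_aa_ne

/-- the kernel of the parametrisation is the ideal of the fibre -/
lemma th_eq_zero_iff (c : ℂ) (f : MvPolynomial (Fin 3) ℂ) :
    th c f = 0 ↔ ∀ v ∈ Fibre pp c, eval v f = 0 := by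
  constructor
  · intro h v hv
    obtain ⟨N, g, k, e⟩ := reduce c f
    have h1 := congrArg (th c) e
    rw [map_mul, h, mul_zero, map_add, map_mul, th_pp, mul_zero, add_zero, th_jj] at h1
    have hg : g = 0 := io_inj (by rw [← h1, map_zero])
    rw [hg, map_zero, zero_add] at e
    have hp : Prime (pp - C c) := (irr_pp c).prime
    have hd : (pp - C c) ∣ AA ^ N * f := ⟨k, by rw [e, mul_comm]⟩
    rcases hp.dvd_or_dvd hd with h2 | h2
    · exfalso
      have h3 := hp.dvd_of_dvd_pow h2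
      obtain ⟨q, hq⟩ := h3
      have := congrArg (th c) hq
      rw [map_mul, th_pp, zero_mul] at this
      exact th_AA c this
    · obtain ⟨q, rfl⟩ := h2
      have : eval v (pp - C c) = 0 := by
        have hv' : eval v pp = c := hv
        rw [map_sub, hv', eval_C, sub_self]
      rw [map_mul, this, zero_mul]
  · intro h
    obtain ⟨N, g, k, e⟩ := reduce c f
    have hg : g = 0 := by
      have h1 : ∀ r s : ℂ, r ≠ 0 → r ≠ 1 → ev r s g = 0 := by
        intro r s hr0 hr1
        have hr1' : r - 1 ≠ 0 := sub_ne_zero.mpr hr1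
        let v : Fin 3 → ℂ := ![(c + s ^ 2 * (1 - r) + s ^ 4 * r) / (r * (r - 1)), s, r]
        have hv : v ∈ Fibre pp c := by
          rw [mem_fibre]
          change r * (r - 1) * ((c + s ^ 2 * (1 - r) + s ^ 4 * r) / (r * (r - 1)))
            - s ^ 2 * (1 - r) - s ^ 4 * r = c
          field_simp
          ring
        have h2 := congrArg (eval v) e
        have hv' : eval v (pp - C c) = 0 := by
          have : eval v pp = c := hv
          rw [map_sub, this, eval_C, sub_self]
        rw [map_mul, h v hv, mul_zero, map_add, map_mul, hv', mul_zero, add_zero, eval_jj] at h2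
        exact h2.symm
      ext1 n
      rw [Polynomial.coeff_zero]
      apply Polynomial.eq_zero_of_infinite_isRoot
      have hinf : ({0, 1}ᶜ : Set ℂ).Infinite := (Set.toFinite {0, 1}).infinite_compl
      refine hinf.mono ?_
      intro r hr
      simp only [Set.mem_compl_iff, Set.mem_insert_iff, Set.mem_singleton_iff, not_or] at hr
      have h3 : g.map (Polynomial.evalRingHom r) = 0 := by
        apply Polynomial.funext
        intro s
        rw [Polynomial.eval_zero]
        exact h1 r s hr.1 hr.2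
      have h4 := congrArg (fun q => q.coeff n) h3
      beta_reduce at h4
      rw [Polynomial.coeff_map, Polynomial.coeff_zero] at h4
      exact h4
    have h1 := congrArg (th c) e
    rw [hg, map_zero, zero_add, map_mul, map_mul, th_pp, mul_zero, map_pow] at h1
    exact (mul_eq_zero.mp h1).resolve_left (pow_ne_zero N (th_AA c))

lemma eval_aeval (F : Fin 3 → MvPolynomial (Fin 3) ℂ) (v : Fin 3 → ℂ)
    (f : MvPolynomial (Fin 3) ℂ) : eval v (aeval F f) = eval (polyMap F v) f := by
  induction f using MvPolynomial.induction_on with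
  | C a => simp
  | add p q hp hq => rw [map_add, map_add, map_add, hp, hq]
  | mul_X p i hp => rw [map_mul, map_mul, map_mul, hp, aeval_X, eval_X]; rfl

/-- the parametrisation with values in `R_c` -/
noncomputable def thR (c : ℂ) : MvPolynomial (Fin 3) ℂ →ₐ[ℂ] RR c := (th c).rangeRestrict

lemma thR_val (c : ℂ) (f : MvPolynomial (Fin 3) ℂ) : (thR c f : Polynomial K) = th c f := rfl

lemma thR_surj (c : ℂ) : Function.Surjective (thR c) := AlgHom.rangeRestrict_surjective _

/-- the pullback of functions along a polynomial map of fibres -/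
lemma exists_pullback {c c' : ℂ} (F : Fin 3 → MvPolynomial (Fin 3) ℂ)
    (hF : ∀ v ∈ Fibre pp c, polyMap F v ∈ Fibre pp c') :
    ∃ Ψ : RR c' →ₐ[ℂ] RR c, ∀ f, Ψ (thR c' f) = thR c (aeval F f) := by
  let e := Ideal.quotientKerAlgEquivOfSurjective (thR_surj c')
  have hker : ∀ a : MvPolynomial (Fin 3) ℂ, a ∈ RingHom.ker (thR c') →
      ((thR c).comp (aeval F)) a = 0 := by
    intro a ha
    have h1 : th c' a = 0 := congrArg Subtype.val (show thR c' a = 0 from ha)
    rw [th_eq_zero_iff] at h1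
    apply Subtype.ext
    change th c (aeval F a) = 0
    rw [th_eq_zero_iff]
    intro v hv
    rw [eval_aeval]
    exact h1 _ (hF v hv)
  let q := Ideal.Quotient.liftₐ (RingHom.ker (thR c'))
    ((thR c).comp (aeval F)) hker
  refine ⟨q.comp (e.symm : RR c' →ₐ[ℂ] _), fun f => ?_⟩
  have h1 : e.symm (thR c' f) = Ideal.Quotient.mk _ f := by
    rw [AlgEquiv.symm_apply_eq]
    rfl
  change q (e.symm (thR c' f)) = _
  rw [h1]
  rfl

theorem eq_of_iso {c c' : ℂ} (h : IsoVar (Fibre pp c) (Fibre pp c')) (hc' : c' ≠ 0) : c = c' := by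
  obtain ⟨F, G, hF, hG, hGF, hFG⟩ := h
  obtain ⟨ΨF, hΨF⟩ := exists_pullback F hF
  obtain ⟨ΨG, hΨG⟩ := exists_pullback G hG
  let Φ : RR c ≃ₐ[ℂ] RR c' := AlgEquiv.ofAlgHom ΨG ΨF
    (by
      apply AlgHom.ext
      intro a
      obtain ⟨f, rfl⟩ := thR_surj c' a
      rw [AlgHom.comp_apply, hΨF, hΨG, AlgHom.id_apply]
      apply Subtype.ext
      change th c' (aeval G (aeval F f)) = th c' f
      rw [← sub_eq_zero, ← map_sub, th_eq_zero_iff]
      intro w hw
      rw [map_sub, eval_aeval, eval_aeval, hFG w hw, sub_self])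
    (by
      apply AlgHom.ext
      intro a
      obtain ⟨f, rfl⟩ := thR_surj c a
      rw [AlgHom.comp_apply, hΨG, hΨF, AlgHom.id_apply]
      apply Subtype.ext
      change th c (aeval F (aeval G f)) = th c f
      rw [← sub_eq_zero, ← map_sub, th_eq_zero_iff]
      intro w hw
      rw [map_sub, eval_aeval, eval_aeval, hGF w hw, sub_self])
  exact eq_of_equiv Φ hc'

theorem not_isotrivial : ¬ IsIsotrivial pp := by
  rintro ⟨U, -, hU, h⟩
  -- two distinct nonzero points of `U`
  have hinf : (U \ {0}).Infinite := by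
    have h1 : (Uᶜ ∪ {0}).Finite := hU.union (Set.finite_singleton 0)
    have h2 : (U \ {0}) = (Uᶜ ∪ {0})ᶜ := by
      ext x; simp [and_comm]
    rw [h2]
    exact h1.infinite_compl
  obtain ⟨a, ha⟩ := hinf.nonempty
  obtain ⟨b, hb, hab⟩ := hinf.exists_notMem_finset {a}
  have hab' : b ≠ a := by simpa using hab
  exact hab' (eq_of_iso (h b hb.1 a ha.1) ha.2)

theorem main : Irreducible pp ∧ ContractibleSpace (Fibre pp 0) ∧ ¬ IsIsotrivial pp ∧
    ∀ c c' : ℂ, c ≠ 0 → c' ≠ 0 → IsoVar (Fibre pp c) (Fibre pp c') → c = c' := by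
  refine ⟨?_, contractible_pp, not_isotrivial, fun c c' _ hc' h => eq_of_iso h hc'⟩
  have := irr_pp 0
  rwa [C_0, sub_zero] at this

end Pool.Agent.H9.Isotriv
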