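import Pool.Agent.H9.Isotriv.Lnd3

namespace Pool.Agent.H9.Isotriv

open Polynomial

/-! ### the derivation `a ∂_y` -/

lemma aderiv_mem {c : ℂ} {f : K[X]} (hf : f ∈ RR c) : C (kap aa) * derivative f ∈ RR c := by
  obtain ⟨g, rfl⟩ := hf
  change C (kap aa) * derivative (th c g) ∈ RR c
  induction g using MvPolynomial.induction_on with
  | C a =>
    have : th c (MvPolynomial.C a) = algebraMap ℂ K[X] a := (th c).commutes a
    rw [this, algMap, derivative_C, mul_zero]
    exact (RR c).zero_mem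
  | add p q hp hq =>
    rw [map_add, derivative_add, mul_add]
    exact (RR c).add_mem hp hq
  | mul_X p i hp =>
    rw [map_mul, derivative_mul, mul_add, ← mul_assoc]
    have hm : ∀ g, th c g ∈ RR c := fun g => ⟨g, rfl⟩
    refine (RR c).add_mem ((RR c).mul_mem hp (hm _)) ?_
    have e : C (kap aa) * (th c p * derivative (th c (MvPolynomial.X i))) =
      th c p * (C (kap aa) * derivative (th c (MvPolynomial.X i))) := by ring
    rw [e]
    refine (RR c).mul_mem (hm _) ?_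
    fin_cases i
    · change C (kap aa) * derivative (th c (MvPolynomial.X 0)) ∈ RR c
      rw [th_X0]
      have h1 := congrArg derivative (rel_x c)
      rw [derivative_C_mul, ← kap_aa] at h1
      rw [h1]
      have h2 : derivative (X ^ 2 * C (1 - Z) + X ^ 4 * C Z + cc c : K[X]) =
          io (2 * X * C (1 - X) + 4 * X ^ 3 * C X) := by
        have e1 : kap (1 - X) = 1 - Z := by rw [map_sub, map_one]; rfl
        have e2 : kap X = Z := rfl
        have c2 : (C 2 : K[X]) = 2 := map_ofNat C 2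
        have c4 : (C 4 : K[X]) = 4 := map_ofNat C 4
        simp only [map_add, map_mul, map_pow, io_X, io_C, e1, e2, map_ofNat,
          derivative_mul, derivative_X_pow, derivative_C, mul_zero, add_zero, cc]
        simp [c2, c4]
      rw [h2]
      exact io_mem c _
    · change C (kap aa) * derivative (th c (MvPolynomial.X 1)) ∈ RR c
      rw [th_X1, derivative_X, mul_one]
      exact C_kap_mem c _
    · change C (kap aa) * derivative (th c (MvPolynomial.X 2)) ∈ RR c
      rw [th_X2, derivative_C, mul_zero]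
      exact (RR c).zero_mem

/-- `D₀ = a ∂_y` on `R_c`, as a linear map -/
noncomputable def D0lin (c : ℂ) : RR c →ₗ[ℂ] RR c where
  toFun f := ⟨C (kap aa) * derivative (f : K[X]), aderiv_mem (Subtype.mem f)⟩
  map_add' f g := Subtype.ext (by
    change C (kap aa) * derivative ((f : K[X]) + (g : K[X])) = C (kap aa) * derivative (f : K[X])
      + C (kap aa) * derivative (g : K[X])
    rw [derivative_add, mul_add])
  map_smul' r f := Subtype.ext (by
    change C (kap aa) * derivative (r • (f : K[X])) = r • (C (kap aa) * derivative (f : K[X]))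
    rw [Algebra.smul_def, Algebra.smul_def, algMap, derivative_C_mul]; ring)

/-- `D₀ = a ∂_y` on `R_c` -/
noncomputable def D0 (c : ℂ) : Derivation ℂ (RR c) (RR c) :=
  Derivation.mk' (R := ℂ) (A := RR c) (M := RR c) (D0lin c)
    (fun f g => Subtype.ext (by
        change C (kap aa) * derivative ((f : K[X]) * (g : K[X])) = (f : K[X]) * (C (kap aa)
          * derivative (g : K[X])) + (g : K[X]) * (C (kap aa) * derivative (f : K[X]))
        rw [derivative_mul]; ring))

lemma D0_val (c : ℂ) (f : RR c) : (D0 c f : K[X]) = C (kap aa) * derivative (f : K[X]) := rfl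

lemma D0_iter (c : ℂ) (f : RR c) (n : ℕ) :
    (((D0 c)^[n] f : RR c) : K[X]) = C (kap aa) ^ n * derivative^[n] (f : K[X]) := by
  induction n with
  | zero => simp
  | succ n ih =>
    rw [Function.iterate_succ_apply', Function.iterate_succ_apply', D0_val, ih, ← C_pow,
      derivative_C_mul, C_pow, pow_succ]
    ring

lemma D0_LN (c : ℂ) (f : RR c) : ∃ n, (D0 c)^[n] f = 0 := by
  refine ⟨(f : K[X]).natDegree + 1, Subtype.ext ?_⟩
  rw [D0_iter, iterate_derivative_eq_zero (Nat.lt_succ_self _), mul_zero]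
  rfl

variable {c c' : ℂ}

/-- transport of `D₀`, as a linear map -/
noncomputable def DTlin (Φ : RR c ≃ₐ[ℂ] RR c') : RR c →ₗ[ℂ] RR c where
  toFun f := Φ.symm (D0 c' (Φ f))
  map_add' f g := by rw [map_add, map_add, map_add]
  map_smul' r f := by
    rw [map_smul Φ, Derivation.map_smul, map_smul Φ.symm]
    rfl

/-- transport of `D₀` -/
noncomputable def DT (Φ : RR c ≃ₐ[ℂ] RR c') : Derivation ℂ (RR c) (RR c) :=
  Derivation.mk' (R := ℂ) (A := RR c) (M := RR c) (DTlin Φ)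
    (fun f g => by
      change Φ.symm (D0 c' (Φ (f * g))) = f * Φ.symm (D0 c' (Φ g)) + g * Φ.symm (D0 c' (Φ f))
      rw [map_mul, Derivation.leibniz, map_add, smul_eq_mul, smul_eq_mul, map_mul, map_mul,
        AlgEquiv.symm_apply_apply, AlgEquiv.symm_apply_apply])

lemma DT_apply (Φ : RR c ≃ₐ[ℂ] RR c') (f : RR c) : DT Φ f = Φ.symm (D0 c' (Φ f)) := rfl

lemma DT_LN (Φ : RR c ≃ₐ[ℂ] RR c') (f : RR c) : ∃ n, (DT Φ)^[n] f = 0 := by
  obtain ⟨n, hn⟩ := D0_LN c' (Φ f)
  refine ⟨n, ?_⟩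
  have : ∀ m, (DT Φ)^[m] f = Φ.symm ((D0 c')^[m] (Φ f)) := by
    intro m
    induction m with
    | zero => simp
    | succ m ih =>
      rw [Function.iterate_succ_apply', Function.iterate_succ_apply', ih, DT_apply,
        AlgEquiv.apply_symm_apply]
  rw [this, hn, map_zero]

lemma iR_inj (c : ℂ) : Function.Injective (iR c) := by
  intro f g h
  exact io_inj (congrArg Subtype.val h)

lemma Phi_z (Φ : RR c ≃ₐ[ℂ] RR c') : ∃ ζ : ℂ[X], Φ (zR c) = iR c' (C ζ) := by
  have h1 := lnd_z (DT Φ) (DT_LN Φ)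
  rw [DT_apply] at h1
  have h2 : D0 c' (Φ (zR c)) = 0 := by
    have := congrArg Φ h1
    rwa [AlgEquiv.apply_symm_apply, map_zero] at this
  have h3 : C (kap aa) * derivative ((Φ (zR c) : RR c') : K[X]) = 0 := congrArg Subtype.val h2
  have h4 : derivative ((Φ (zR c) : RR c') : K[X]) = 0 :=
    (mul_eq_zero.mp h3).resolve_left (C_ne_zero.mpr kap_aa_ne)
  have h5 : ((Φ (zR c) : RR c') : K[X]).natDegree = 0 :=
    Polynomial.derivative_eq_zero.mp h4
  obtain ⟨a, ha⟩ := exists_psum_of_natDegree_lt (RR_le (Subtype.mem (Φ (zR c)))) (N := 1)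
    (by rw [h5]; norm_num)
  refine ⟨a 0, Subtype.ext ?_⟩
  rw [ha, iR_val, io_C]
  unfold psum
  have := ee0 c' 0
  rw [mul_zero, pow_zero] at this
  rw [Finset.sum_range_one, this, mul_one]

lemma Phi_C (Φ : RR c ≃ₐ[ℂ] RR c') {ζ : ℂ[X]} (hζ : Φ (zR c) = iR c' (C ζ)) (p : ℂ[X]) :
    Φ (iR c (C p)) = iR c' (C (p.comp ζ)) := by
  have h1 : aeval (zR c') ζ = Φ (zR c) := by rw [← iR_C, hζ]
  rw [iR_C, iR_C, aeval_comp, h1]
  exact (Polynomial.aeval_algHom_apply Φ (zR c) p).symm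

lemma zeta_deg (Φ : RR c ≃ₐ[ℂ] RR c') {ζ : ℂ[X]} (hζ : Φ (zR c) = iR c' (C ζ)) :
    ζ.natDegree = 1 := by
  obtain ⟨ζ', hζ'⟩ := Phi_z Φ.symm
  have h1 : zR c' = iR c' (C (ζ'.comp ζ)) := by
    rw [← Phi_C Φ hζ, ← hζ', AlgEquiv.apply_symm_apply]
  have h2 : (C X : ℂ[X][X]) = C (ζ'.comp ζ) := iR_inj c' h1
  have h3 : (X : ℂ[X]) = ζ'.comp ζ := C_injective h2
  have h4 := congrArg natDegree h3
  rw [natDegree_X, natDegree_comp] at h4
  exact Nat.eq_one_of_dvd_one ⟨_, by rw [mul_comm]; exact h4⟩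

lemma Phi_iR (Φ : RR c ≃ₐ[ℂ] RR c') {ζ : ℂ[X]} (hζ : Φ (zR c) = iR c' (C ζ)) (G : ℂ[X][X]) :
    ((Φ (iR c G) : RR c') : K[X]) =
      (G.map (kap.comp (compRingHom ζ))).comp ((Φ (yR c) : RR c') : K[X]) := by
  induction G using Polynomial.induction_on' with
  | add p q hp hq =>
    rw [map_add, map_add, Polynomial.map_add, add_comp, ← hp, ← hq]
    rfl
  | monomial n p =>
    rw [← C_mul_X_pow_eq_monomial, map_mul, map_mul, map_pow, map_pow, Phi_C Φ hζ,
      Polynomial.map_mul, Polynomial.map_pow, map_C, map_X, mul_comp, pow_comp, X_comp, C_comp]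
    change io (C (p.comp ζ)) * ((Φ (yR c) : RR c') : K[X]) ^ n = _
    rw [io_C]
    rfl

lemma Phi_y (Φ : RR c ≃ₐ[ℂ] RR c') : ∃ α B : ℂ[X], Φ (yR c) = iR c' (C B + C α * X) := by
  obtain ⟨ζ, hζ⟩ := Phi_z Φ
  have hd := zeta_deg Φ hζ
  obtain ⟨N, G, hG⟩ := clear (RR_le (Subtype.mem (Φ.symm (yR c'))))
  have hG' : iR c (C aa) ^ N * Φ.symm (yR c') = iR c G := Subtype.ext (by
    change (io (C aa)) ^ N * ((Φ.symm (yR c') : RR c) : K[X]) = io G
    rw [io_C, hG])
  have h1 := congrArg Φ hG'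
  rw [map_mul, map_pow, AlgEquiv.apply_symm_apply, Phi_C Φ hζ] at h1
  have h2 := congrArg (Subtype.val) h1
  rw [Phi_iR Φ hζ] at h2
  change (io (C (aa.comp ζ))) ^ N * (yR c' : K[X]) = _ at h2
  rw [io_C, yR_val, ← C_pow] at h2
  have hne : kap (aa.comp ζ) ^ N ≠ 0 := by
    apply pow_ne_zero
    intro h0
    have h3 : aa.comp ζ = 0 := kap_inj (by rw [h0, map_zero])
    have h4 := congrArg natDegree h3
    rw [natDegree_comp, hd, aa_natDegree] at h4
    simp at h4
  have h5 := congrArg natDegree h2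
  rw [natDegree_C_mul hne, natDegree_X, natDegree_comp] at h5
  have h6 : ((Φ (yR c) : RR c') : K[X]).natDegree = 1 := Nat.eq_one_of_dvd_one ⟨_, by rw [mul_comm]; exact h5⟩
  obtain ⟨a, ha⟩ := exists_psum_of_natDegree_lt (RR_le (Subtype.mem (Φ (yR c)))) (N := 2)
    (by rw [h6]; norm_num)
  refine ⟨a 1, a 0, Subtype.ext ?_⟩
  rw [ha, iR_val]
  unfold psum
  have e0 := ee0 c' 0
  have e1 := ee1 c' 0
  rw [mul_zero, pow_zero] at e0
  rw [mul_zero, zero_add, pow_zero, mul_one] at e1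
  rw [Finset.sum_range_succ, Finset.sum_range_one, e0, e1, mul_one, map_add, map_mul, io_C, io_C,
    io_X]

lemma alpha_unit (Φ : RR c ≃ₐ[ℂ] RR c') {α B : ℂ[X]} (h : Φ (yR c) = iR c' (C B + C α * X)) :
    ∃ α0 : ℂ, α0 ≠ 0 ∧ α = C α0 := by
  obtain ⟨ζ, hζ⟩ := Phi_z Φ
  obtain ⟨α', B', h'⟩ := Phi_y Φ.symm
  have h1 : yR c' = Φ (iR c (C B' + C α' * X)) := by
    rw [← h', AlgEquiv.apply_symm_apply]
  have e : iR c X = yR c := rfl
  rw [map_add (iR c), map_mul (iR c), e, map_add, map_mul, Phi_C Φ hζ, Phi_C Φ hζ, h, ← map_mul,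
    ← map_add] at h1
  have h2 : (X : ℂ[X][X]) = C (B'.comp ζ) + C (α'.comp ζ) * (C B + C α * X) := iR_inj c' h1
  have h3 := congrArg (fun q => q.coeff 1) h2
  beta_reduce at h3
  rw [coeff_X_one, coeff_add, coeff_C_mul, coeff_add, coeff_C_mul, coeff_X_one,
    coeff_C_of_ne_zero (by norm_num), coeff_C_of_ne_zero (by norm_num), zero_add, zero_add,
    mul_one] at h3
  have hu : IsUnit α := IsUnit.of_mul_eq_one (α'.comp ζ) (by rw [mul_comm]; exact h3.symm)
  obtain ⟨r, hr, hr'⟩ := Polynomial.isUnit_iff.mp hu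
  exact ⟨r, hr.ne_zero, hr'.symm⟩

end Pool.Agent.H9.Isotriv
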