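import Pool.Agent.H9.Isotriv.Alg2

namespace Pool.Agent.H9.Isotriv

open Polynomial

/-! ### leading terms -/

/-- `f` is bounded by `z^e y^j` (lexicographically, `y` first), and the coefficient of `z^e y^j`
in `f` is `l` -/
def Bel (f : K[X]) (j : ℕ) (e : ℤ) (l : ℂ) : Prop :=
  ∃ (N E : ℕ) (g : ℂ[X][X]), (E : ℤ) = e + 2 * N ∧ C (kap aa) ^ N * f = io g ∧
    g.natDegree ≤ j ∧ (g.coeff j).natDegree ≤ E ∧ (g.coeff j).coeff E = l

lemma Bel.enlarge {f : K[X]} {j : ℕ} {e : ℤ} {l : ℂ} (h : Bel f j e l) :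
    ∃ N0 : ℕ, ∀ N : ℕ, N0 ≤ N → ∃ (E : ℕ) (g : ℂ[X][X]), (E : ℤ) = e + 2 * N ∧
      C (kap aa) ^ N * f = io g ∧ g.natDegree ≤ j ∧ (g.coeff j).natDegree ≤ E ∧
      (g.coeff j).coeff E = l := by
  obtain ⟨N0, E, g, h1, h2, h3, h4, h5⟩ := h
  refine ⟨N0, fun N hN => ?_⟩
  obtain ⟨k, rfl⟩ := Nat.exists_eq_add_of_le hN
  have hm : (aa ^ k).Monic := aa_monic.pow k
  have hd : (aa ^ k).natDegree = 2 * k := by
    rw [natDegree_pow, aa_natDegree]; ring
  refine ⟨E + 2 * k, C (aa ^ k) * g, by push_cast; omega, ?_, ?_, ?_, ?_⟩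
  · rw [map_mul, io_C, map_pow, C_pow, ← h2, pow_add]; ring
  · exact (natDegree_C_mul_le _ _).trans h3
  · rw [coeff_C_mul]
    refine natDegree_mul_le.trans ?_
    omega
  · rw [coeff_C_mul, add_comm E, coeff_mul_add_eq_of_natDegree_le hd.le h4, ← hd, coeff_natDegree,
      hm.leadingCoeff, one_mul, h5]

lemma Bel.ne_zero {f : K[X]} {j : ℕ} {e : ℤ} {l : ℂ} (h : Bel f j e l) (hl : l ≠ 0) : f ≠ 0 := by
  rintro rfl
  obtain ⟨N0, E, g, h1, h2, h3, h4, h5⟩ := h
  rw [mul_zero] at h2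
  have : g = 0 := io_inj (by rw [← h2, map_zero])
  rw [this] at h5
  simp at h5
  exact hl h5.symm

lemma exists_Bel {c : ℂ} {f : K[X]} (hf : f ∈ TT c) (h0 : f ≠ 0) :
    ∃ j e l, l ≠ 0 ∧ Bel f j e l := by
  obtain ⟨N, g, h⟩ := clear hf
  have hg : g ≠ 0 := by
    rintro rfl
    rw [map_zero] at h
    rcases mul_eq_zero.mp h with h1 | h1
    · exact pow_ne_zero N (C_ne_zero.mpr kap_aa_ne) h1
    · exact h0 h1
  refine ⟨g.natDegree, (g.leadingCoeff.natDegree : ℤ) - 2 * N, g.leadingCoeff.leadingCoeff,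
    leadingCoeff_ne_zero.mpr (leadingCoeff_ne_zero.mpr hg), N, g.leadingCoeff.natDegree, g,
    by ring, h, le_rfl, le_rfl, rfl⟩

/-- weaken to a strictly larger position: the coefficient becomes `0` -/
lemma Bel.lt {f : K[X]} {j : ℕ} {e : ℤ} {l : ℂ} (h : Bel f j e l) {j' : ℕ} {e' : ℤ}
    (hlt : j < j' ∨ (j = j' ∧ e < e')) : Bel f j' e' 0 := by
  obtain ⟨N0, hN⟩ := h.enlarge
  obtain ⟨E, g, h1, h2, h3, h4, h5⟩ := hN (N0 + e'.natAbs) (by omega)
  have hE' : 0 ≤ e' + 2 * ((N0 + e'.natAbs : ℕ) : ℤ) := by omega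
  obtain ⟨E', hE'⟩ := Int.eq_ofNat_of_zero_le hE'
  refine ⟨N0 + e'.natAbs, E', g, hE'.symm, h2, ?_, ?_, ?_⟩
  · omega
  · rcases hlt with h | ⟨rfl, h⟩
    · have h0 : g.coeff j' = 0 := coeff_eq_zero_of_natDegree_lt (by omega)
      rw [h0]; simp
    · omega
  · rcases hlt with h | ⟨rfl, h⟩
    · have h0 : g.coeff j' = 0 := coeff_eq_zero_of_natDegree_lt (by omega)
      rw [h0]; simp
    · exact coeff_eq_zero_of_natDegree_lt (by omega)

lemma Bel_zero (j : ℕ) (e : ℤ) : Bel 0 j e 0 := by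
  have hE' : 0 ≤ e + 2 * ((e.natAbs : ℕ) : ℤ) := by omega
  obtain ⟨E', hE'⟩ := Int.eq_ofNat_of_zero_le hE'
  exact ⟨e.natAbs, E', 0, hE'.symm, by simp, by simp, by simp, by simp⟩

/-- the structure of leading terms of elements of `T` -/
lemma Bel.bound {c : ℂ} {f : K[X]} (hf : f ∈ TT c) {j : ℕ} {e : ℤ} {l : ℂ} (h : Bel f j e l)
    (hl : l ≠ 0) : -((j / 2 : ℕ) : ℤ) - ((j / 4 : ℕ) : ℤ) ≤ e := by
  obtain ⟨N, E, g, h1, h2, h3, h4, h5⟩ := h
  have hgj : g.coeff j ≠ 0 := by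
    intro h0; rw [h0, coeff_zero] at h5; exact hl h5.symm
  have hgd : g.natDegree = j := le_antisymm h3 (le_natDegree_of_ne_zero hgj)
  have hgE : (g.coeff j).natDegree = E :=
    le_antisymm h4 (le_natDegree_of_ne_zero (by rw [h5]; exact hl))
  have hne : C (kap aa) ^ N ≠ 0 := pow_ne_zero N (C_ne_zero.mpr kap_aa_ne)
  have hd1 : (C (kap aa) ^ N * f).natDegree = f.natDegree := by
    rw [← C_pow, natDegree_C_mul (pow_ne_zero N kap_aa_ne)]
  have hfd : f.natDegree = j := by rw [← hd1, h2, io_natDegree, hgd]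
  have hlc : kap aa ^ N * f.leadingCoeff = kap (g.coeff j) := by
    have := congrArg (fun q => q.coeff j) h2
    beta_reduce at this
    rw [← C_pow, coeff_C_mul, io_coeff] at this
    rw [← this, ← hfd, coeff_natDegree]
  obtain ⟨p, hp⟩ := leadingCoeff_of_mem hf
  rw [hfd] at hp
  have key : aa ^ N * p = g.coeff j * (X ^ (j / 2) * (1 - X) ^ (j / 4)) := by
    apply kap_inj
    rw [map_mul, map_mul, map_mul, map_pow, map_pow, map_pow, map_sub, map_one, ← hlc, hp]
    have e : lam j * (Z ^ (j / 2) * (1 - Z) ^ (j / 4)) = 1 := by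
      unfold lam
      exact inv_mul_cancel₀ (mul_ne_zero (pow_ne_zero _ Z_ne) (pow_ne_zero _ Z1_ne))
    change kap aa ^ N * kap p = kap aa ^ N * (kap p * lam j) * (Z ^ (j / 2) * (1 - Z) ^ (j / 4))
    calc kap aa ^ N * kap p
        = kap aa ^ N * kap p * (lam j * (Z ^ (j / 2) * (1 - Z) ^ (j / 4))) := by rw [e, mul_one]
      _ = _ := by ring
  have hp0 : p ≠ 0 := by
    rintro rfl
    rw [mul_zero] at key
    rcases mul_eq_zero.mp key.symm with h | h
    · exact hgj h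
    · rcases mul_eq_zero.mp h with h | h
      · exact pow_ne_zero _ X_ne_zero h
      · have h6 : (1 - X : ℂ[X]) = 0 := by
          by_contra h7
          exact pow_ne_zero _ h7 h
        have h7 := congrArg (eval 0) h6
        simp at h7
  have h1X : (1 - X : ℂ[X]).natDegree = 1 := by
    have : (1 - X : ℂ[X]) = -(X - C 1) := by rw [C_1]; ring
    rw [this, natDegree_neg, natDegree_X_sub_C]
  have h1X0 : (1 - X : ℂ[X]) ≠ 0 := by
    intro h; rw [h] at h1X; simp at h1X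
  have hdeg := congrArg natDegree key
  rw [natDegree_mul (pow_ne_zero _ aa_monic.ne_zero) hp0, natDegree_pow, aa_natDegree,
    natDegree_mul hgj (mul_ne_zero (pow_ne_zero _ X_ne_zero) (pow_ne_zero _ h1X0)),
    natDegree_mul (pow_ne_zero _ X_ne_zero) (pow_ne_zero _ h1X0), natDegree_X_pow, natDegree_pow,
    h1X, hgE] at hdeg
  omega

/-! ### the derivative with respect to `z` -/

/-- coefficientwise derivative -/
noncomputable def dz (g : ℂ[X][X]) : ℂ[X][X] :=
  ∑ n ∈ Finset.range (g.natDegree + 1), monomial n (derivative (g.coeff n))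

lemma dz_coeff (g : ℂ[X][X]) (n : ℕ) : (dz g).coeff n = derivative (g.coeff n) := by
  unfold dz
  rw [finsetSum_coeff]
  simp only [coeff_monomial]
  rw [Finset.sum_ite_eq']
  split_ifs with h
  · rfl
  · rw [coeff_eq_zero_of_natDegree_lt, derivative_zero]
    rw [Finset.mem_range] at h
    omega

lemma dz_add (g h : ℂ[X][X]) : dz (g + h) = dz g + dz h := by
  ext1 n
  rw [coeff_add, dz_coeff, dz_coeff, dz_coeff, coeff_add, derivative_add]

lemma dz_monomial (n : ℕ) (p : ℂ[X]) : dz (monomial n p) = monomial n (derivative p) := by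
  ext1 m
  rw [dz_coeff, coeff_monomial, coeff_monomial]
  split_ifs
  · rfl
  · exact derivative_zero

lemma dz_natDegree_le {g : ℂ[X][X]} {j : ℕ} (h : g.natDegree ≤ j) : (dz g).natDegree ≤ j := by
  rw [natDegree_le_iff_coeff_eq_zero]
  intro m hm
  rw [dz_coeff, coeff_eq_zero_of_natDegree_lt (by omega), derivative_zero]

/-- `t₁` -/
noncomputable def t1 (N : ℕ) (g : ℂ[X][X]) : ℂ[X][X] :=
  C aa * dz g - C ((N : ℂ[X]) * derivative aa) * g

lemma t1_natDegree {N : ℕ} {g : ℂ[X][X]} {j : ℕ} (h : g.natDegree ≤ j) :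
    (t1 N g).natDegree ≤ j := by
  unfold t1
  exact (natDegree_sub_le _ _).trans (max_le ((natDegree_C_mul_le _ _).trans (dz_natDegree_le h))
    ((natDegree_C_mul_le _ _).trans h))

lemma aa_deriv : derivative aa = 2 * X - 1 := by
  unfold aa
  simp only [derivative_mul, derivative_X, derivative_sub, derivative_one, one_mul, sub_zero,
    mul_one]
  ring

lemma poly_step {b : ℂ[X]} {E N : ℕ} {l : ℂ} (h1 : b.natDegree ≤ E) (h2 : b.coeff E = l) :
    (aa * derivative b - ((N : ℂ[X]) * derivative aa) * b).natDegree ≤ E + 1 ∧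
    (aa * derivative b - ((N : ℂ[X]) * derivative aa) * b).coeff (E + 1)
      = ((E : ℂ) - 2 * N) * l := by
  have hN : (N : ℂ[X]) = C (N : ℂ) := (C_eq_natCast N).symm
  have hco : ∀ m, E < m → b.coeff m = 0 := fun m hm => coeff_eq_zero_of_natDegree_lt (by omega)
  have hbd : ∀ m, E ≤ m → (derivative b).coeff m = 0 := fun m hm => by
    rw [coeff_derivative, hco _ (by omega), zero_mul]
  have hform : aa * derivative b - ((N : ℂ[X]) * derivative aa) * b =
      X * (X * derivative b) - X * derivative b - C (N : ℂ) * (X * (C 2 * b)) + C (N : ℂ) * b := by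
    rw [aa_deriv, hN]
    unfold aa
    have : (C 2 : ℂ[X]) = 2 := map_ofNat C 2
    rw [this]
    ring
  rw [hform]
  constructor
  · rw [natDegree_le_iff_coeff_eq_zero]
    intro m hm
    obtain ⟨k, rfl⟩ := Nat.exists_eq_add_of_lt hm
    have e : E + 1 + k + 1 = (E + k + 1) + 1 := by ring
    rw [e]
    simp only [coeff_add, coeff_sub, coeff_X_mul, coeff_C_mul]
    rw [hbd (E + k) (by omega), hbd (E + k + 1) (by omega), hco _ (by omega), hco _ (by omega)]
    ring
  · simp only [coeff_add, coeff_sub, coeff_X_mul, coeff_C_mul]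
    rw [hbd E le_rfl, hco (E + 1) (by omega), h2]
    cases E with
    | zero =>
      rw [coeff_X_mul_zero]
      push_cast
      ring
    | succ E =>
      rw [coeff_X_mul, coeff_derivative, h2]
      push_cast
      ring

lemma t1_coeff {N : ℕ} {g : ℂ[X][X]} {j E : ℕ} {l : ℂ} (h4 : (g.coeff j).natDegree ≤ E)
    (h5 : (g.coeff j).coeff E = l) : ((t1 N g).coeff j).natDegree ≤ E + 1 ∧
      ((t1 N g).coeff j).coeff (E + 1) = ((E : ℂ) - 2 * N) * l := by
  have : (t1 N g).coeff j = aa * derivative (g.coeff j)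
      - ((N : ℂ[X]) * derivative aa) * g.coeff j := by
    unfold t1
    rw [coeff_sub, coeff_C_mul, coeff_C_mul, dz_coeff]
  rw [this]
  exact poly_step h4 h5

lemma t2_coeff {g : ℂ[X][X]} {j E : ℕ} {l : ℂ} (h4 : (g.coeff (j + 1)).natDegree ≤ E)
    (h5 : (g.coeff (j + 1)).coeff E = l) :
    ((C aa * derivative g).coeff j).natDegree ≤ E + 2 ∧
      ((C aa * derivative g).coeff j).coeff (E + 2) = ((j : ℂ) + 1) * l := by
  have hj : ((j : ℂ[X]) + 1) = C ((j : ℂ) + 1) := by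
    rw [C_add, C_1, C_eq_natCast]
  rw [coeff_C_mul, coeff_derivative, hj]
  constructor
  · refine natDegree_mul_le.trans ?_
    rw [aa_natDegree]
    have := (natDegree_mul_C_le (g.coeff (j + 1)) ((j : ℂ) + 1))
    omega
  · rw [add_comm E 2, coeff_mul_add_eq_of_natDegree_le aa_natDegree.le
      ((natDegree_mul_C_le _ _).trans h4), coeff_mul_C, h5]
    have : aa.coeff 2 = 1 := by
      have := aa_monic.coeff_natDegree
      rwa [aa_natDegree] at this
    rw [this]
    ring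

end Pool.Agent.H9.Isotriv
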