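import Pool.Agent.H9.Isotriv.Lnd

namespace Pool.Agent.H9.Isotriv

open Polynomial

/-- the parametrisation `x ↦ x_c, y ↦ y, z ↦ z` -/
noncomputable def th (c : ℂ) : MvPolynomial (Fin 3) ℂ →ₐ[ℂ] K[X] :=
  MvPolynomial.aeval ![xx c, X, C Z]

/-- the coordinate ring of `X_c` -/
noncomputable def RR (c : ℂ) : Subalgebra ℂ K[X] := (th c).range

lemma algMap (a : ℂ) : algebraMap ℂ K[X] a = C (kap (C a)) := by
  rw [Polynomial.algebraMap_apply, IsScalarTower.algebraMap_apply ℂ ℂ[X] K]
  rfl

lemma th_mem_TT (c : ℂ) (f : MvPolynomial (Fin 3) ℂ) : th c f ∈ TT c := by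
  induction f using MvPolynomial.induction_on with
  | C a =>
    have : th c (MvPolynomial.C a) = C (kap (C a)) * 1 := by
      rw [← algMap, mul_one]
      exact (th c).commutes a
    rw [this]
    exact kap_mul_mem _ (one_mem_T c)
  | add p q hp hq => rw [map_add]; exact Submodule.add_mem _ hp hq
  | mul_X p i hp =>
    rw [map_mul, mul_comm]
    have hX : th c (MvPolynomial.X i) = ![xx c, X, C Z] i := by
      unfold th; rw [MvPolynomial.aeval_X]
    rw [hX]
    fin_cases i
    · exact x_mul_mem hp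
    · exact X_mul_mem hp
    · exact Z_mul_mem hp

lemma RR_le {c : ℂ} {f : K[X]} (hf : f ∈ RR c) : f ∈ TT c := by
  obtain ⟨g, rfl⟩ := hf
  exact th_mem_TT c g

lemma th_X0 (c : ℂ) : th c (MvPolynomial.X 0) = xx c := by
  unfold th; rw [MvPolynomial.aeval_X]; rfl

lemma th_X1 (c : ℂ) : th c (MvPolynomial.X 1) = X := by
  unfold th; rw [MvPolynomial.aeval_X]; rfl

lemma th_X2 (c : ℂ) : th c (MvPolynomial.X 2) = C Z := by
  unfold th; rw [MvPolynomial.aeval_X]; rfl

lemma xx_mem (c : ℂ) : xx c ∈ RR c := ⟨MvPolynomial.X 0, th_X0 c⟩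

lemma X_mem (c : ℂ) : (X : K[X]) ∈ RR c := ⟨MvPolynomial.X 1, th_X1 c⟩

lemma CZ_mem (c : ℂ) : (C Z : K[X]) ∈ RR c := ⟨MvPolynomial.X 2, th_X2 c⟩

lemma cc_mem (c d : ℂ) : cc d ∈ RR c := by
  unfold cc
  rw [← algMap]
  exact (RR c).algebraMap_mem d

lemma C_kap_mem (c : ℂ) (p : ℂ[X]) : C (kap p) ∈ RR c := by
  induction p using Polynomial.induction_on' with
  | add p q hp hq => rw [map_add, C_add]; exact (RR c).add_mem hp hq
  | monomial n a =>
    rw [← C_mul_X_pow_eq_monomial, map_mul, map_pow, C_mul, C_pow]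
    exact (RR c).mul_mem (cc_mem c a) ((RR c).pow_mem (CZ_mem c) n)

lemma io_mem (c : ℂ) (g : ℂ[X][X]) : io g ∈ RR c := by
  induction g using Polynomial.induction_on' with
  | add p q hp hq => rw [map_add]; exact (RR c).add_mem hp hq
  | monomial n a =>
    rw [← C_mul_X_pow_eq_monomial, map_mul, map_pow, io_C, io_X]
    exact (RR c).mul_mem (C_kap_mem c a) ((RR c).pow_mem (X_mem c) n)

lemma vv_mem (c : ℂ) : vv c ∈ RR c := by
  -- `v = -x z - y² + y⁴`... : (1-z)(−xz − (y²+c)) = z (y⁴+c)
  have h1 := rel_x c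
  have h2 := rel_v c
  have : vv c = -(xx c * C Z) - X ^ 2 + X ^ 4 := by
    have h3 : (C (1 - Z) : K[X]) ≠ 0 := C_ne_zero.mpr Z1_ne
    apply mul_left_cancel₀ h3
    rw [h2]
    have h4 : C (1 - Z) * (-(xx c * C Z) - X ^ 2 + X ^ 4) =
      C (Z * (Z - 1)) * xx c - C (1 - Z) * X ^ 2 + C (1 - Z) * X ^ 4 := by
      simp only [C_mul, C_sub, C_1]; ring
    rw [h4, h1]
    simp only [C_sub, C_1]
    ring
  rw [this]
  exact (RR c).add_mem ((RR c).sub_mem ((RR c).neg_mem ((RR c).mul_mem (xx_mem c) (CZ_mem c)))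
    ((RR c).pow_mem (X_mem c) 2)) ((RR c).pow_mem (X_mem c) 4)

lemma uu_mem (c : ℂ) : uu c ∈ RR c := by
  have : uu c = -xx c - vv c := by unfold xx; ring
  rw [this]
  exact (RR c).sub_mem ((RR c).neg_mem (xx_mem c)) (vv_mem c)

lemma ww_mem (c : ℂ) : ww c ∈ RR c := by
  have e : (C (1 + Z) : K[X]) = C (kap (1 + X)) := by
    rw [map_add kap, map_one kap]; rfl
  unfold ww
  rw [e]
  exact (RR c).add_mem ((RR c).mul_mem (C_kap_mem c _) ((RR c).pow_mem (uu_mem c) 2)) (vv_mem c)

/-- the inclusion `ℂ[z][y] → R_c` -/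
noncomputable def iR (c : ℂ) : ℂ[X][X] →+* RR c := io.codRestrict (RR c) (io_mem c)

lemma iR_val (c : ℂ) (g : ℂ[X][X]) : (iR c g : K[X]) = io g := rfl

noncomputable def zR (c : ℂ) : RR c := iR c (C X)

noncomputable def yR (c : ℂ) : RR c := iR c X

lemma zR_val (c : ℂ) : (zR c : K[X]) = C Z := by
  change io (C X) = C Z
  rw [io_C]; rfl

lemma yR_val (c : ℂ) : (yR c : K[X]) = X := io_X

variable {c : ℂ}

lemma iR_C (p : ℂ[X]) : iR c (C p) = aeval (zR c) p := by
  induction p using Polynomial.induction_on' with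
  | add p q hp hq => rw [C_add, map_add, map_add, hp, hq]
  | monomial n a =>
    rw [aeval_monomial]
    apply Subtype.ext
    rw [iR_val, io_C, ← C_mul_X_pow_eq_monomial, map_mul, map_pow, C_mul, C_pow]
    change _ = algebraMap ℂ K[X] a * (zR c : K[X]) ^ n
    rw [zR_val, algMap]
    rfl

lemma D_C (D : Derivation ℂ (RR c) (RR c)) (p : ℂ[X]) :
    D (iR c (C p)) = iR c (C (derivative p)) * D (zR c) := by
  rw [iR_C, iR_C, Derivation.map_aeval, smul_eq_mul]

lemma D_io (D : Derivation ℂ (RR c) (RR c)) (g : ℂ[X][X]) :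
    D (iR c g) = iR c (dz g) * D (zR c) + iR c (derivative g) * D (yR c) := by
  induction g using Polynomial.induction_on' with
  | add p q hp hq =>
    rw [map_add (iR c), map_add, hp, hq, dz_add, derivative_add, map_add, map_add]
    ring
  | monomial n p =>
    rw [dz_monomial, derivative_monomial, ← C_mul_X_pow_eq_monomial, ← C_mul_X_pow_eq_monomial,
      ← C_mul_X_pow_eq_monomial]
    simp only [map_mul, map_pow]
    rw [Derivation.leibniz, Derivation.leibniz_pow, D_C]
    have e : iR c X = yR c := rfl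
    rw [e]
    simp only [smul_eq_mul, nsmul_eq_mul, map_natCast]
    ring

/-- the key identity -/
lemma D_clear (D : Derivation ℂ (RR c) (RR c)) {f : RR c} {N M : ℕ} {g P0 Q0 : ℂ[X][X]}
    (hf : C (kap aa) ^ N * (f : K[X]) = io g)
    (hP : C (kap aa) ^ M * (D (zR c) : K[X]) = io P0)
    (hQ : C (kap aa) ^ M * (D (yR c) : K[X]) = io Q0) :
    C (kap aa) ^ (N + M + 1) * (D f : K[X]) =
      io (P0 * t1 N g + Q0 * (C aa * derivative g)) := by
  set A : RR c := iR c (C aa) with hA
  have hAv : (A : K[X]) = C (kap aa) := by rw [hA, iR_val, io_C]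
  have hf' : A ^ N * f = iR c g := Subtype.ext (by
    change (A : K[X]) ^ N * (f : K[X]) = io g
    rw [hAv, hf])
  have hP' : A ^ M * D (zR c) = iR c P0 := Subtype.ext (by
    change (A : K[X]) ^ M * (D (zR c) : K[X]) = io P0
    rw [hAv, hP])
  have hQ' : A ^ M * D (yR c) = iR c Q0 := Subtype.ext (by
    change (A : K[X]) ^ M * (D (yR c) : K[X]) = io Q0
    rw [hAv, hQ])
  have hDA : D A = iR c (C (derivative aa)) * D (zR c) := D_C D aa
  have h1 := congrArg D hf'
  rw [Derivation.leibniz, Derivation.leibniz_pow, hDA, D_io] at h1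
  simp only [smul_eq_mul, nsmul_eq_mul] at h1
  have hNA : (N : RR c) * A ^ (N - 1) * A = N * A ^ N := by
    cases N with
    | zero => simp
    | succ N => rw [Nat.add_sub_cancel, pow_succ]; ring
  have key : A ^ (N + M + 1) * D f = iR c (P0 * t1 N g + Q0 * (C aa * derivative g)) := by
    have h2 : A ^ (N + M + 1) * D f = A ^ (M + 1) * (A ^ N * D f) := by
      rw [← mul_assoc, ← pow_add]; congr 2; ring
    have h3 : A ^ N * D f = iR c (dz g) * D (zR c) + iR c (derivative g) * D (yR c)
        - f * (N * (A ^ (N - 1) * (iR c (C (derivative aa)) * D (zR c)))) := by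
      rw [← h1]; ring
    rw [h2, h3]
    have h4 : A ^ (M + 1) * (iR c (dz g) * D (zR c) + iR c (derivative g) * D (yR c)
        - f * (N * (A ^ (N - 1) * (iR c (C (derivative aa)) * D (zR c))))) =
        A * iR c (dz g) * (A ^ M * D (zR c)) + A * iR c (derivative g) * (A ^ M * D (yR c))
        - (A ^ M * D (zR c)) * iR c (C (derivative aa)) * (((N : RR c) * A ^ (N - 1) * A) * f) := by
      rw [pow_succ]; ring
    rw [h4, hNA, hP', hQ', mul_assoc (N : RR c), hf']
    unfold t1
    simp only [map_add, map_mul, map_sub, map_natCast, ← hA]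
    ring
  have := congrArg Subtype.val key
  change (A : K[X]) ^ (N + M + 1) * (D f : K[X]) = io _ at this
  rw [hAv] at this
  exact this

/-- how a derivation moves leading terms -/
lemma step (D : Derivation ℂ (RR c) (RR c)) {d1 : ℕ} {d2 : ℤ} {p q : ℂ}
    (hP : Bel (D (zR c) : K[X]) d1 (d2 + 1) p) (hQ : Bel (D (yR c) : K[X]) (d1 + 1) d2 q)
    {f : RR c} {j : ℕ} {e : ℤ} {l : ℂ} (hf : Bel (f : K[X]) j e l) :
    Bel (D f : K[X]) (j + d1) (e + d2) (l * (p * e + q * j)) := by
  obtain ⟨N, E, g, hE, hg, hg1, hg2, hg3⟩ := hf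
  obtain ⟨NP, hNP⟩ := hP.enlarge
  obtain ⟨NQ, hNQ⟩ := hQ.enlarge
  set M := max NP NQ with hM
  obtain ⟨EP, P0, hEP, hP0, hP1, hP2, hP3⟩ := hNP M (le_max_left _ _)
  obtain ⟨EQ, Q0, hEQ, hQ0, hQ1, hQ2, hQ3⟩ := hNQ M (le_max_right _ _)
  have key := D_clear D hg hP0 hQ0
  obtain ⟨ht1, ht1'⟩ := t1_coeff (N := N) hg2 hg3
  have hEE : (E : ℂ) - 2 * N = e := by
    have : ((E : ℤ) : ℂ) = ((e + 2 * N : ℤ) : ℂ) := by rw [hE]
    push_cast at this
    rw [this]; ring
  have hEPQ : EP = EQ + 1 := by omega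
  refine ⟨N + M + 1, E + EP + 1, _, by push_cast; omega, key, ?_, ?_⟩
  · -- natDegree
    refine (natDegree_add_le _ _).trans (max_le ?_ ?_)
    · refine natDegree_mul_le.trans ?_
      have := t1_natDegree (N := N) hg1
      omega
    · cases j with
      | zero =>
        have h0 : derivative g = 0 := by
          have : g = C (g.coeff 0) := eq_C_of_natDegree_le_zero hg1
          rw [this, derivative_C]
        rw [h0, mul_zero, mul_zero, natDegree_zero]
        exact Nat.zero_le _
      | succ j =>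
        refine natDegree_mul_le.trans ?_
        have h1 := natDegree_C_mul_le aa (derivative g)
        have h2 := natDegree_derivative_le g
        omega
  · have hc1 : (P0 * t1 N g).coeff (j + d1) = P0.coeff d1 * (t1 N g).coeff j := by
      rw [add_comm j d1]
      exact coeff_mul_add_eq_of_natDegree_le hP1 (t1_natDegree hg1)
    have hA : (P0.coeff d1 * (t1 N g).coeff j).natDegree ≤ E + EP + 1 ∧
        (P0.coeff d1 * (t1 N g).coeff j).coeff (E + EP + 1) = p * (e * l) := by
      constructor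
      · refine natDegree_mul_le.trans ?_
        omega
      · rw [(by ring : E + EP + 1 = EP + (E + 1)), coeff_mul_add_eq_of_natDegree_le hP2 ht1, hP3,
          ht1', hEE]
    cases j with
    | zero =>
      have h0 : derivative g = 0 := by
        have : g = C (g.coeff 0) := eq_C_of_natDegree_le_zero hg1
        rw [this, derivative_C]
      rw [h0, mul_zero, mul_zero, add_zero, hc1]
      refine ⟨hA.1, ?_⟩
      rw [hA.2]
      push_cast
      ring
    | succ j =>
      obtain ⟨ht2, ht2'⟩ := t2_coeff hg2 hg3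
      have hd : (C aa * derivative g).natDegree ≤ j := by
        have h1 := natDegree_C_mul_le aa (derivative g)
        have h2 := natDegree_derivative_le g
        omega
      have hc2 : (Q0 * (C aa * derivative g)).coeff (j + 1 + d1) =
          Q0.coeff (d1 + 1) * (C aa * derivative g).coeff j := by
        rw [(by ring : j + 1 + d1 = (d1 + 1) + j)]
        exact coeff_mul_add_eq_of_natDegree_le hQ1 hd
      have hB : (Q0.coeff (d1 + 1) * (C aa * derivative g).coeff j).natDegree ≤ E + EP + 1 ∧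
          (Q0.coeff (d1 + 1) * (C aa * derivative g).coeff j).coeff (E + EP + 1)
            = q * (((j : ℂ) + 1) * l) := by
        constructor
        · refine natDegree_mul_le.trans ?_
          omega
        · rw [hEPQ, (by ring : E + (EQ + 1) + 1 = EQ + (E + 2)),
            coeff_mul_add_eq_of_natDegree_le hQ2 ht2, hQ3, ht2']
      rw [coeff_add, hc1, hc2]
      constructor
      · exact (natDegree_add_le _ _).trans (max_le hA.1 hB.1)
      · rw [coeff_add, hA.2, hB.2]
        push_cast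
        ring

end Pool.Agent.H9.Isotriv
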