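import Pool.Agent.H9.Isotriv.Lnd2

namespace Pool.Agent.H9.Isotriv

open Polynomial

variable {c : ℂ}

lemma iter (D : Derivation ℂ (RR c) (RR c)) {d1 : ℕ} {d2 : ℤ} {p q : ℂ}
    (hP : Bel (D (zR c) : K[X]) d1 (d2 + 1) p) (hQ : Bel (D (yR c) : K[X]) (d1 + 1) d2 q)
    {f : RR c} {j : ℕ} {e : ℤ} {l : ℂ} (hf : Bel (f : K[X]) j e l) (i : ℕ) :
    Bel ((D^[i] f : RR c) : K[X]) (j + i * d1) (e + i * d2)
      (l * ∏ k ∈ Finset.range i, (p * ((e + k * d2 : ℤ) : ℂ) + q * ((j + k * d1 : ℕ) : ℂ))) := by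
  induction i with
  | zero => simpa using hf
  | succ i ih =>
    rw [Function.iterate_succ_apply', Finset.prod_range_succ, ← mul_assoc]
    have := step D hP hQ ih
    have e1 : j + i * d1 + d1 = j + (i + 1) * d1 := by ring
    have e2 : e + i * d2 + d2 = e + ((i + 1 : ℕ) : ℤ) * d2 := by push_cast; ring
    rw [e1, e2] at this
    exact this

lemma first_zero (D : Derivation ℂ (RR c) (RR c)) (hLN : ∀ f, ∃ n, D^[n] f = 0) {d1 : ℕ} {d2 : ℤ}
    {p q : ℂ} (hP : Bel (D (zR c) : K[X]) d1 (d2 + 1) p)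
    (hQ : Bel (D (yR c) : K[X]) (d1 + 1) d2 q)
    {f : RR c} {j : ℕ} {e : ℤ} {l : ℂ} (hf : Bel (f : K[X]) j e l) (hl : l ≠ 0) :
    ∃ k : ℕ, p * ((e + k * d2 : ℤ) : ℂ) + q * ((j + k * d1 : ℕ) : ℂ) = 0 ∧
      ∀ i ≤ k, -(((j + i * d1) / 2 : ℕ) : ℤ) - (((j + i * d1) / 4 : ℕ) : ℤ) ≤ e + i * d2 := by
  classical
  have hex : ∃ k : ℕ, p * ((e + k * d2 : ℤ) : ℂ) + q * ((j + k * d1 : ℕ) : ℂ) = 0 := by
    by_contra hcon
    push Not at hcon
    obtain ⟨n, hn⟩ := hLN f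
    have h1 := iter D hP hQ hf n
    have h2 : l * ∏ k ∈ Finset.range n,
        (p * ((e + k * d2 : ℤ) : ℂ) + q * ((j + k * d1 : ℕ) : ℂ)) ≠ 0 :=
      mul_ne_zero hl (Finset.prod_ne_zero_iff.mpr (fun k _ => hcon k))
    apply h1.ne_zero h2
    rw [hn]
    rfl
  refine ⟨Nat.find hex, Nat.find_spec hex, fun i hi => ?_⟩
  have h1 := iter D hP hQ hf i
  have h2 : l * ∏ k ∈ Finset.range i,
      (p * ((e + k * d2 : ℤ) : ℂ) + q * ((j + k * d1 : ℕ) : ℂ)) ≠ 0 := by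
    refine mul_ne_zero hl (Finset.prod_ne_zero_iff.mpr (fun k hk => ?_))
    exact Nat.find_min hex (lt_of_lt_of_le (Finset.mem_range.mp hk) hi)
  exact h1.bound (RR_le (Subtype.mem _)) h2

lemma Bel_z : Bel (zR c : K[X]) 0 1 1 := by
  refine ⟨0, 1, C X, by norm_num, ?_, by simp, by simp, by simp⟩
  rw [pow_zero, one_mul]; rfl

lemma Bel_y : Bel (yR c : K[X]) 1 0 1 := by
  refine ⟨0, 0, X, by norm_num, ?_, by simp, by simp, by simp⟩
  rw [pow_zero, one_mul]; rfl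

lemma Bel_w : ∃ l : ℂ, l ≠ 0 ∧ Bel (ww c) 4 (-3) l := by
  have h0 : ww c ≠ 0 := by
    intro h
    have := (w_deg c).1
    rw [h] at this; simp at this
  obtain ⟨j, e, l, hl, N, E, g, h1, h2, h3, h4, h5⟩ := exists_Bel (RR_le (ww_mem c)) h0
  -- identify `j` and `e`
  have hgj : g.coeff j ≠ 0 := by
    intro h0; rw [h0, coeff_zero] at h5; exact hl h5.symm
  have hgd : g.natDegree = j := le_antisymm h3 (le_natDegree_of_ne_zero hgj)
  have hgE : (g.coeff j).natDegree = E :=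
    le_antisymm h4 (le_natDegree_of_ne_zero (by rw [h5]; exact hl))
  have hd1 : (C (kap aa) ^ N * ww c).natDegree = (ww c).natDegree := by
    rw [← C_pow, natDegree_C_mul (pow_ne_zero N kap_aa_ne)]
  have hj : j = 4 := by rw [← hgd, ← io_natDegree, ← h2, hd1, (w_deg c).1]
  subst hj
  have hlc : kap aa ^ N * (Z ^ 2 * (1 - Z))⁻¹ = kap (g.coeff 4) := by
    have := congrArg (fun q => q.coeff 4) h2
    beta_reduce at this
    rw [← C_pow, coeff_C_mul, io_coeff] at this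
    rw [← this]
    congr 1
    rw [← (w_deg c).2, ← coeff_natDegree, (w_deg c).1]
  have key : aa ^ N = g.coeff 4 * (X ^ 2 * (1 - X)) := by
    apply kap_inj
    rw [map_mul, map_mul, map_pow, map_pow, map_sub, map_one, ← hlc]
    have e : (Z ^ 2 * (1 - Z))⁻¹ * (Z ^ 2 * (1 - Z)) = 1 :=
      inv_mul_cancel₀ (mul_ne_zero (pow_ne_zero _ Z_ne) Z1_ne)
    change kap aa ^ N = kap aa ^ N * (Z ^ 2 * (1 - Z))⁻¹ * (Z ^ 2 * (1 - Z))
    rw [mul_assoc, e, mul_one]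
  have h1X : (1 - X : ℂ[X]).natDegree = 1 := by
    have : (1 - X : ℂ[X]) = -(X - C 1) := by rw [C_1]; ring
    rw [this, natDegree_neg, natDegree_X_sub_C]
  have h1X0 : (1 - X : ℂ[X]) ≠ 0 := by
    intro h; rw [h] at h1X; simp at h1X
  have hdeg := congrArg natDegree key
  rw [natDegree_pow, aa_natDegree, natDegree_mul hgj (mul_ne_zero (pow_ne_zero _ X_ne_zero) h1X0),
    natDegree_mul (pow_ne_zero _ X_ne_zero) h1X0, natDegree_X_pow, h1X, hgE] at hdeg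
  have he : e = -3 := by omega
  subst he
  exact ⟨l, hl, N, E, g, h1, h2, h3, h4, h5⟩

/-- the integer arithmetic at the heart of the argument -/
lemma arith (a b k d1 : ℕ) (d2 : ℤ) (hb : 1 ≤ b) (hk : (k : ℤ) = 4 * a - 3 * b)
    (h : (a : ℤ) * d1 + b * d2 = -1)
    (hz : -(((0 + b * d1) / 2 : ℕ) : ℤ) - (((0 + b * d1) / 4 : ℕ) : ℤ) ≤ 1 + b * d2)
    (hz' : -(((0 + (b - 1) * d1) / 2 : ℕ) : ℤ) - (((0 + (b - 1) * d1) / 4 : ℕ) : ℤ)
      ≤ 1 + ((b - 1 : ℕ) : ℤ) * d2)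
    (hy : -(((1 + a * d1) / 2 : ℕ) : ℤ) - (((1 + a * d1) / 4 : ℕ) : ℤ) ≤ 0 + a * d2) : False := by
  have h1 : (k : ℤ) * d1 ≤ 0 := by
    have e1 : (4 : ℤ) * (((0 + b * d1) / 2 : ℕ) : ℤ) ≤ 2 * (b * d1 : ℕ) := by omega
    have e2 : (4 : ℤ) * (((0 + b * d1) / 4 : ℕ) : ℤ) ≤ (b * d1 : ℕ) := by omega
    have e3 : -(3 * ((b * d1 : ℕ) : ℤ)) ≤ 4 * (1 + b * d2) := by linarith
    have e4 : (1 : ℤ) + b * d2 = - (a * d1) := by linarith
    rw [e4] at e3
    push_cast at e3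
    rw [hk]
    nlinarith
  have h2 : k * d1 = 0 := by
    have : ((k * d1 : ℕ) : ℤ) ≤ 0 := by push_cast; exact h1
    omega
  rcases Nat.mul_eq_zero.mp h2 with hk0 | hd
  · -- `4 a = 3 b`
    rw [hk0] at hk
    obtain ⟨t, ht⟩ : ∃ t : ℕ, b = 4 * t := ⟨b / 4, by omega⟩
    have ha : a = 3 * t := by omega
    rw [ha, ht] at h
    have h3 : (t : ℤ) * (3 * d1 + 4 * d2) = -1 := by
      push_cast at h
      linarith
    have ht1 : (t : ℤ) = 1 := by
      have h4 : (t : ℤ) ∣ 1 := by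
        have : (t : ℤ) ∣ -1 := ⟨_, h3.symm⟩
        exact (dvd_neg.mp this)
      exact Int.eq_one_of_dvd_one (by positivity) h4
    have ht1' : t = 1 := by exact_mod_cast ht1
    subst ht1'
    subst ht
    norm_num at hz' h3
    omega
  · subst hd
    have h3 : (b : ℤ) * d2 = -1 := by
      push_cast at h
      linarith
    have hb1 : (b : ℤ) = 1 := by
      have h4 : (b : ℤ) ∣ 1 := by
        have : (b : ℤ) ∣ -1 := ⟨_, h3.symm⟩
        exact (dvd_neg.mp this)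
      exact Int.eq_one_of_dvd_one (by positivity) h4
    rw [hb1, one_mul] at h3
    rw [h3] at hy
    norm_num at hy
    have hb1' : b = 1 := by exact_mod_cast hb1
    rw [hb1'] at hk
    omega

/-- every locally nilpotent derivation of `R_c` kills `z` -/
theorem lnd_z (D : Derivation ℂ (RR c) (RR c)) (hLN : ∀ f, ∃ n, D^[n] f = 0) :
    D (zR c) = 0 := by
  by_contra hP0
  have hP0' : (D (zR c) : K[X]) ≠ 0 := fun h => hP0 (Subtype.ext h)
  obtain ⟨p1, p2, ph, hph, hP⟩ := exists_Bel (RR_le (Subtype.mem (D (zR c)))) hP0'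
  obtain ⟨d1, d2, p, q, hpq, hP', hQ'⟩ : ∃ (d1 : ℕ) (d2 : ℤ) (p q : ℂ), (p ≠ 0 ∨ q ≠ 0) ∧
      Bel (D (zR c) : K[X]) d1 (d2 + 1) p ∧ Bel (D (yR c) : K[X]) (d1 + 1) d2 q := by
    by_cases hQ0 : (D (yR c) : K[X]) = 0
    · refine ⟨p1, p2 - 1, ph, 0, Or.inl hph, ?_, ?_⟩
      · rw [sub_add_cancel]; exact hP
      · rw [hQ0]; exact Bel_zero _ _
    · obtain ⟨q1, q2, qh, hqh, hQ⟩ := exists_Bel (RR_le (Subtype.mem (D (yR c)))) hQ0
      by_cases h1 : q1 < p1 + 1 ∨ (q1 = p1 + 1 ∧ q2 < p2 - 1)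
      · refine ⟨p1, p2 - 1, ph, 0, Or.inl hph, ?_, hQ.lt h1⟩
        rw [sub_add_cancel]; exact hP
      · by_cases h2 : q1 = p1 + 1 ∧ q2 = p2 - 1
        · obtain ⟨rfl, rfl⟩ := h2
          refine ⟨p1, p2 - 1, ph, qh, Or.inl hph, ?_, hQ⟩
          rw [sub_add_cancel]; exact hP
        · have hq1 : 1 ≤ q1 := by omega
          refine ⟨q1 - 1, q2, 0, qh, Or.inr hqh, hP.lt (by omega), ?_⟩
          rw [Nat.sub_add_cancel hq1]; exact hQ
  obtain ⟨b, hb, hbz⟩ := first_zero D hLN hP' hQ' Bel_z one_ne_zero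
  obtain ⟨a, ha, hay⟩ := first_zero D hLN hP' hQ' Bel_y one_ne_zero
  obtain ⟨l, hl, hw⟩ := Bel_w (c := c)
  obtain ⟨k, hk, -⟩ := first_zero D hLN hP' hQ' (f := ⟨ww c, ww_mem c⟩) hw hl
  push_cast at ha hb hk
  set s := p * d2 + q * d1 with hs
  have hb' : p + b * s = 0 := by rw [hs]; linear_combination hb
  have ha' : q + a * s = 0 := by rw [hs]; linear_combination ha
  have hk' : 4 * q - 3 * p + k * s = 0 := by rw [hs]; linear_combination hk
  have hs0 : s ≠ 0 := by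
    intro h
    rw [h] at ha' hb'
    rcases hpq with h1 | h1
    · apply h1; linear_combination hb'
    · apply h1; linear_combination ha'
  have hkab : (k : ℂ) = 4 * a - 3 * b := by
    apply mul_right_cancel₀ hs0
    linear_combination hk' - 4 * ha' + 3 * hb'
  have hkab' : (k : ℤ) = 4 * a - 3 * b := by exact_mod_cast hkab
  have hab : (a : ℂ) * d1 + b * d2 = -1 := by
    apply mul_right_cancel₀ hs0
    have : p * d2 + q * d1 = s := rfl
    linear_combination d2 * hb' + d1 * ha' - this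
  have hab' : (a : ℤ) * d1 + b * d2 = -1 := by exact_mod_cast hab
  by_cases hb1 : 1 ≤ b
  · exact arith a b k d1 d2 hb1 hkab' hab' (hbz b le_rfl) (hbz (b - 1) (Nat.sub_le _ _))
      (hay a le_rfl)
  · -- `b = 0`
    have hb0 : b = 0 := by omega
    subst hb0
    have h1 : (a : ℤ) * d1 = -1 := by simpa using hab'
    have h2 : (0 : ℤ) ≤ a * d1 := by positivity
    omega

end Pool.Agent.H9.Isotriv
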